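import Pool.Agent.Lib_helper43.OC.Chains

set_option autoImplicit false
set_option linter.unusedSectionVars false

open Finset

/-! Geometric (barycentric) subdivision of ordered chains of points of a normed space. -/

namespace Pool.Agent.OC

section
variable {R : Type*} [CommRing R]
variable {E : Type*} [NormedAddCommGroup E] [NormedSpace ℝ E]

/-- diameter bound. -/
def DL (D : ℝ) (l : List E) : Prop := ∀ x ∈ l, ∀ y ∈ l, dist x y ≤ D

/-- convex hull of a list. -/
def hull (l : List E) : Set E := convexHull ℝ {x | x ∈ l}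

/-- barycentre of a list. -/
noncomputable def bary (l : List E) : E := (1 / (l.length : ℝ)) • l.sum

theorem subset_hull (l : List E) {x : E} (hx : x ∈ l) : x ∈ hull l := subset_convexHull ℝ _ hx

theorem hull_mono {l m : List E} (h : ∀ x ∈ m, x ∈ l) : hull m ⊆ hull l :=
  convexHull_mono (fun x hx => h x hx)

theorem hull_subset {l : List E} {C : Set E} (hC : Convex ℝ C) (h : ∀ x ∈ l, x ∈ C) :
    hull l ⊆ C := convexHull_min (fun x hx => h x hx) hC

theorem DL.mono {D D' : ℝ} (h : D ≤ D') {l : List E} (hl : DL D l) : DL D' l :=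
  fun x hx y hy => (hl x hx y hy).trans h

theorem DL.sub {D : ℝ} {l m : List E} (hl : DL D l) (h : ∀ x ∈ m, x ∈ l) : DL D m :=
  fun x hx y hy => hl x (h x hx) y (h y hy)

theorem DL.hull {D : ℝ} {l m : List E} (hl : DL D l) (h : ∀ x ∈ m, x ∈ OC.hull l) : DL D m := by
  have h1 : ∀ x ∈ l, ∀ y ∈ OC.hull l, dist y x ≤ D := by
    intro x hx y hy
    have : OC.hull l ⊆ Metric.closedBall x D :=
      hull_subset (convex_closedBall x D) (fun z hz => by
        rw [Metric.mem_closedBall]; exact hl z hz x hx)
    have := this hy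
    rwa [Metric.mem_closedBall] at this
  intro x hx y hy
  have : OC.hull l ⊆ Metric.closedBall x D :=
    hull_subset (convex_closedBall x D) (fun z hz => by
      rw [Metric.mem_closedBall, dist_comm]; exact h1 z hz x (h x hx))
  have := this (h y hy)
  rw [Metric.mem_closedBall, dist_comm] at this
  exact this

theorem sum_eq (l : List E) : l.sum = ∑ i : Fin l.length, l.get i := by
  rw [← List.sum_ofFn, List.ofFn_get]

theorem bary_mem {l : List E} (hl : l ≠ []) : bary l ∈ OC.hull l := by
  have hn : (0 : ℝ) < l.length := by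
    have := List.length_pos_iff.2 hl
    exact_mod_cast this
  have : bary l = ∑ i : Fin l.length, (1 / (l.length : ℝ)) • l.get i := by
    rw [bary, sum_eq, Finset.smul_sum]
  rw [this]
  apply (convex_convexHull ℝ _).sum_mem
  · intro i _; positivity
  · rw [Finset.sum_const, Finset.card_univ, Fintype.card_fin, nsmul_eq_mul]
    field_simp
  · intro i _
    exact subset_hull l (l.get_mem i)

theorem dist_bary {D : ℝ} {l : List E} (hD : DL D l) {x : E} (hx : x ∈ l) :
    dist (bary l) x ≤ (1 - 1 / (l.length : ℝ)) * D := by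
  obtain ⟨j, rfl⟩ := List.get_of_mem hx
  have hn : (0 : ℝ) < l.length := by
    have := List.length_pos_of_mem hx
    exact_mod_cast this
  have e : bary l - l.get j = (1 / (l.length : ℝ)) • ∑ i : Fin l.length, (l.get i - l.get j) := by
    rw [Finset.sum_sub_distrib, smul_sub, bary, sum_eq, Finset.sum_const, Finset.card_univ,
      Fintype.card_fin, ← Nat.cast_smul_eq_nsmul ℝ, smul_smul, one_div_mul_cancel hn.ne', one_smul]
  rw [dist_eq_norm, e, norm_smul, Real.norm_of_nonneg (by positivity)]
  have h1 : ‖∑ i : Fin l.length, (l.get i - l.get j)‖ ≤ ((l.length : ℝ) - 1) * D := by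
    calc ‖∑ i : Fin l.length, (l.get i - l.get j)‖
        ≤ ∑ i : Fin l.length, ‖l.get i - l.get j‖ := norm_sum_le _ _
      _ = ∑ i ∈ univ.erase j, ‖l.get i - l.get j‖ := by
        rw [← Finset.add_sum_erase _ _ (Finset.mem_univ j)]
        simp
      _ ≤ ∑ _i ∈ univ.erase j, D := by
        apply Finset.sum_le_sum
        intro i _
        rw [← dist_eq_norm]
        exact hD _ (l.get_mem i) _ (l.get_mem j)
      _ = ((l.length : ℝ) - 1) * D := by
        rw [Finset.sum_const, Finset.card_erase_of_mem (Finset.mem_univ j), Finset.card_univ,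
          Fintype.card_fin, nsmul_eq_mul]
        congr 1
        have := List.length_pos_of_mem (l.get_mem j)
        push_cast [Nat.cast_sub (by omega : 1 ≤ l.length)]
        ring
  calc 1 / (l.length : ℝ) * ‖∑ i : Fin l.length, (l.get i - l.get j)‖
      ≤ 1 / (l.length : ℝ) * (((l.length : ℝ) - 1) * D) := by
        apply mul_le_mul_of_nonneg_left h1
        positivity
    _ = (1 - 1 / (l.length : ℝ)) * D := by field_simp

theorem dist_bary_hull {D : ℝ} {l : List E} (hD : DL D l) {x : E}
    (hx : x ∈ OC.hull l) : dist (bary l) x ≤ (1 - 1 / (l.length : ℝ)) * D := by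
  have : OC.hull l ⊆ Metric.closedBall (bary l) ((1 - 1 / (l.length : ℝ)) * D) :=
    hull_subset (convex_closedBall _ _) (fun z hz => by
      rw [Metric.mem_closedBall, dist_comm]; exact dist_bary hD hz)
  have := this hx
  rwa [Metric.mem_closedBall, dist_comm] at this

theorem eraseIdx_mem {X : Type*} (l : List X) (i : ℕ) {x : X} (hx : x ∈ l.eraseIdx i) : x ∈ l :=
  (List.eraseIdx_sublist l i).subset hx

/-- sequences appearing in the subdivision. -/
def Msh (l m : List E) : Prop :=
  m.length = l.length ∧ (∀ x ∈ m, x ∈ OC.hull l) ∧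
    ∀ D, 0 ≤ D → DL D l → DL ((1 - 1 / (l.length : ℝ)) * D) m

theorem supp_gsd (l : List E) : Supp (Msh l) (sd R (bary : List E → E) (bs R l)) := by
  apply supp_sd bary Msh
  · refine ⟨rfl, by simp, ?_⟩
    intro D _ _ x hx
    simp at hx
  · intro l i hi m hm
    obtain ⟨h1, h2, h3⟩ := hm
    have hl : l ≠ [] := by rintro rfl; simp at hi
    have hlen : (l.eraseIdx i).length = l.length - 1 := List.length_eraseIdx_of_lt hi
    have hm2 : ∀ x ∈ m, x ∈ OC.hull l := fun x hx =>
      hull_mono (fun y hy => eraseIdx_mem l i hy) (h2 x hx)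
    refine ⟨?_, ?_, ?_⟩
    · rw [List.length_cons, h1, hlen]
      omega
    · intro x hx
      rcases List.mem_cons.1 hx with hx | hx
      · rw [hx]; exact bary_mem hl
      · exact hm2 x hx
    · intro D hD0 hD
      have hn : (1 : ℝ) ≤ l.length := by
        have : 1 ≤ l.length := by omega
        exact_mod_cast this
      have hnn : 0 ≤ (1 - 1 / (l.length : ℝ)) * D := by
        apply mul_nonneg _ hD0
        rw [sub_nonneg, div_le_one (by linarith)]
        exact hn
      have hd : ∀ x ∈ m, dist (bary l) x ≤ (1 - 1 / (l.length : ℝ)) * D :=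
        fun x hx => dist_bary_hull hD (hm2 x hx)
      intro x hx y hy
      rcases List.mem_cons.1 hx with hx | hx
      · rcases List.mem_cons.1 hy with hy | hy
        · rw [hx, hy, dist_self]; exact hnn
        · rw [hx]; exact hd y hy
      · rcases List.mem_cons.1 hy with hy | hy
        · rw [hy, dist_comm]; exact hd x hx
        · have := h3 D hD0 (hD.sub (fun z hz => eraseIdx_mem l i hz)) x hx y hy
          apply this.trans
          apply mul_le_mul_of_nonneg_right _ hD0
          rw [hlen]
          have hpos : 0 < l.length - 1 := by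
            rw [← hlen, ← h1]
            exact List.length_pos_of_mem hx
          have hpos' : (0 : ℝ) < ((l.length - 1 : ℕ) : ℝ) := by exact_mod_cast hpos
          have hle : ((l.length - 1 : ℕ) : ℝ) ≤ (l.length : ℝ) := by
            exact_mod_cast Nat.sub_le _ _
          have := one_div_le_one_div_of_le hpos' hle
          linarith

variable (R) (E) in
/-- iterated subdivision. -/
noncomputable def gI : ℕ → OCh R E →ₗ[R] OCh R E
  | 0 => LinearMap.id
  | M + 1 => sd R (bary : List E → E) ∘ₗ gI M

variable (R) (E) in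
/-- one step homotopy. -/
noncomputable def gh : OCh R E →ₗ[R] OCh R E :=
  ho R (fun l => (sd R (bary : List E → E) - LinearMap.id : OCh R E →ₗ[R] OCh R E) (bs R l)) bary

variable (R) (E) in
/-- iterated homotopy. -/
noncomputable def gH : ℕ → OCh R E →ₗ[R] OCh R E
  | 0 => 0
  | M + 1 => gH M + gh R E ∘ₗ gI R E M

theorem bd_gI (M : ℕ) (c : OCh R E) : bd R E (gI R E M c) = gI R E M (bd R E c) := by
  induction M generalizing c with
  | zero => rfl
  | succ M ih =>
    rw [gI, LinearMap.comp_apply, bd_sd, ih, LinearMap.comp_apply]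

theorem bd_gh (c : OCh R E) :
    bd R E (gh R E c) = sd R (bary : List E → E) c - c - gh R E (bd R E c) := by
  have := bd_ho (R := R) (sd R (bary : List E → E) - LinearMap.id : OCh R E →ₗ[R] OCh R E) (by
    intro c
    simp only [LinearMap.sub_apply, LinearMap.id_apply, map_sub, bd_sd]) (by
    simp only [LinearMap.sub_apply, LinearMap.id_apply, sd_nil, sub_self]) bary c
  simpa [gh] using this

theorem bd_gH (M : ℕ) (c : OCh R E) :
    bd R E (gH R E M c) = gI R E M c - c - gH R E M (bd R E c) := by
  induction M generalizing c with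
  | zero => simp [gH, gI]
  | succ M ih =>
    simp only [gH, gI, LinearMap.add_apply, LinearMap.comp_apply, map_add]
    rw [ih, bd_gh, bd_gI]
    abel

theorem supp_gh (l : List E) :
    Supp (fun m => ∀ x ∈ m, x ∈ OC.hull l) (gh R E (bs R l)) := by
  apply supp_ho _ bary (fun l m => ∀ x ∈ m, x ∈ OC.hull l)
  · intro l _
    simp only [LinearMap.sub_apply, LinearMap.id_apply]
    apply Supp.sub
    · exact (supp_gsd l).mono (fun m hm => hm.2.1)
    · exact Supp.bs (fun x hx => subset_hull l hx)
  · intro l i _ m hm x hx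
    exact hull_mono (fun y hy => eraseIdx_mem l i hy) (hm x hx)
  · intro l hl m hm x hx
    rcases List.mem_cons.1 hx with hx | hx
    · rw [hx]; exact bary_mem hl
    · exact hm x hx

theorem supp_gI (M : ℕ) (l : List E) :
    Supp (fun m => m.length = l.length ∧ (∀ x ∈ m, x ∈ OC.hull l) ∧
      ∀ D, 0 ≤ D → DL D l → DL ((1 - 1 / (l.length : ℝ)) ^ M * D) m) (gI R E M (bs R l)) := by
  induction M with
  | zero =>
    rw [gI, LinearMap.id_apply]
    apply Supp.bs
    refine ⟨rfl, fun x hx => subset_hull l hx, ?_⟩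
    intro D _ hD
    rwa [pow_zero, one_mul]
  | succ M ih =>
    rw [gI, LinearMap.comp_apply]
    apply ih.lin
    rintro m ⟨h1, h2, h3⟩
    apply (supp_gsd m).mono
    rintro m' ⟨h1', h2', h3'⟩
    refine ⟨h1'.trans h1, ?_, ?_⟩
    · intro x hx
      exact hull_subset (convex_convexHull ℝ _) h2 (h2' x hx)
    · intro D hD0 hD
      rcases eq_or_ne l [] with rfl | hl
      · have : m' = [] := List.length_eq_zero_iff.1 (by rw [h1', h1]; rfl)
        rw [this]
        intro x hx
        simp at hx
      · have hn : (1 : ℝ) ≤ l.length := by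
          have : 1 ≤ l.length := List.length_pos_iff.2 hl
          exact_mod_cast this
        have hnn : 0 ≤ (1 - 1 / (l.length : ℝ)) := by
          rw [sub_nonneg, div_le_one (by linarith)]
          exact hn
        have := h3' _ (mul_nonneg (pow_nonneg hnn M) hD0) (h3 D hD0 hD)
        rw [h1] at this
        rw [pow_succ, mul_comm ((1 - 1 / (l.length : ℝ)) ^ M), mul_assoc]
        exact this

theorem supp_gH (M : ℕ) (l : List E) :
    Supp (fun m => ∀ x ∈ m, x ∈ OC.hull l) (gH R E M (bs R l)) := by
  induction M with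
  | zero => rw [gH, LinearMap.zero_apply]; exact Supp.zero
  | succ M ih =>
    rw [gH, LinearMap.add_apply, LinearMap.comp_apply]
    apply ih.add
    apply (supp_gI M l).lin
    rintro m ⟨_, h2, _⟩
    apply (supp_gh m).mono
    intro m' hm' x hx
    exact hull_subset (convex_convexHull ℝ _) h2 (hm' x hx)

/-- fine subdivisions of chains with bounded diameters. -/
theorem exists_fine {P : List E → Prop} {c : OCh R E} (hc : Supp P c) {D : ℝ} (hD : 0 ≤ D)
    (hP : ∀ l, P l → DL D l) {ε : ℝ} (hε : 0 < ε) :
    ∃ M, Supp (fun m => DL ε m ∧ ∃ l, P l ∧ ∀ x ∈ m, x ∈ OC.hull l) (gI R E M c) := by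
  obtain ⟨N, hN⟩ : ∃ N : ℕ, ∀ l ∈ c.support, l.length ≤ N := by
    refine ⟨c.support.sup List.length, fun l hl => Finset.le_sup (f := List.length) hl⟩
  have hN1 : (0 : ℝ) ≤ 1 - 1 / ((N : ℝ) + 1) := by
    rw [sub_nonneg, div_le_one (by positivity)]
    have : (0 : ℝ) ≤ N := Nat.cast_nonneg N
    linarith
  have hN2 : 1 - 1 / ((N : ℝ) + 1) < 1 := by
    have : 0 < 1 / ((N : ℝ) + 1) := by positivity
    linarith
  obtain ⟨M, hM⟩ : ∃ M : ℕ, (1 - 1 / ((N : ℝ) + 1)) ^ M * D ≤ ε := by
    have h0 := (tendsto_pow_atTop_nhds_zero_of_lt_one hN1 hN2).mul_const D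
    rw [zero_mul] at h0
    obtain ⟨M, hM⟩ := (h0.eventually (ge_mem_nhds hε)).exists
    exact ⟨M, hM⟩
  refine ⟨M, ?_⟩
  have hc' : Supp (fun l => P l ∧ l.length ≤ N) c := by
    intro l hl
    by_cases hP' : P l
    · by_contra h
      exact hl ⟨hP', hN l (Finsupp.mem_support_iff.2 h)⟩
    · exact hc l hP'
  apply hc'.lin
  rintro l ⟨hPl, hlN⟩
  apply (supp_gI M l).mono
  rintro m ⟨h1, h2, h3⟩
  refine ⟨?_, l, hPl, h2⟩
  rcases eq_or_ne l [] with rfl | hl
  · have : m = [] := List.length_eq_zero_iff.1 (by rw [h1]; rfl)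
    rw [this]
    intro x hx
    simp at hx
  · apply (h3 D hD (hP l hPl)).mono
    apply le_trans _ hM
    apply mul_le_mul_of_nonneg_right _ hD
    have hn : (1 : ℝ) ≤ l.length := by
      have : 1 ≤ l.length := List.length_pos_iff.2 hl
      exact_mod_cast this
    apply pow_le_pow_left₀
    · rw [sub_nonneg, div_le_one (by linarith)]
      exact hn
    · have : (l.length : ℝ) ≤ (N : ℝ) + 1 := by
        have : (l.length : ℝ) ≤ N := by exact_mod_cast hlN
        linarith
      have := one_div_le_one_div_of_le (by linarith) this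
      linarith

end

end Pool.Agent.OC
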