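import Pool.Agent.Lib_helper43.OC.Cert

set_option autoImplicit false
set_option linter.unusedSectionVars false

open Finset

/-! Reduction to strictly increasing sequences; explicit finite checks. -/

namespace Pool.Agent.OC

section
variable {R : Type*} [CommRing R]

variable (R) in
/-- insertion in increasing position with sign. -/
noncomputable def insF (x : ℕ) : List ℕ → OCh R ℕ
  | [] => bs R [x]
  | y :: m => if x < y then bs R (x :: y :: m) else if x = y then 0 else
      - cone R y (insF x m)

variable (R) in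
/-- insertion operator. -/
noncomputable def ins (x : ℕ) : OCh R ℕ →ₗ[R] OCh R ℕ := ext R (insF R x)

/-- strictly increasing sequences. -/
def Sor (l : List ℕ) : Prop := l.Pairwise (· < ·)

theorem ins_lt {x : ℕ} {m : List ℕ} (h : ∀ y ∈ m, x < y) : ins R x (bs R m) = bs R (x :: m) := by
  rcases m with _ | ⟨y, m⟩
  · simp [ins, insF]
  · rw [ins, ext_bs, insF, if_pos (h y (by simp))]

theorem ins_cone_self (x : ℕ) (c : OCh R ℕ) : ins R x (cone R x c) = 0 := by
  have : ins R x ∘ₗ cone R x = 0 := by
    apply lin_ext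
    intro l
    rw [LinearMap.comp_apply, cone_bs, ins, ext_bs, insF, if_neg (lt_irrefl x), if_pos rfl,
      LinearMap.zero_apply]
  exact LinearMap.congr_fun this c

theorem ins_cone_gt {x y : ℕ} (h : y < x) (c : OCh R ℕ) :
    ins R x (cone R y c) = - cone R y (ins R x c) := by
  have : ins R x ∘ₗ cone R y = -(cone R y ∘ₗ ins R x) := by
    apply lin_ext
    intro l
    rw [LinearMap.comp_apply, cone_bs, ins, ext_bs, insF, if_neg (by omega), if_neg (by omega),
      LinearMap.neg_apply, LinearMap.comp_apply, ext_bs]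
  exact LinearMap.congr_fun this c

theorem ins_gt {c : OCh R ℕ} {x : ℕ} (hc : Supp (fun m => ∀ y ∈ m, x < y) c) :
    ins R x c = cone R x c := by
  apply hc.congr
  intro m hm
  rw [ins_lt hm, cone_bs]

theorem bd_ins {x : ℕ} {m : List ℕ} (hm : Sor m) :
    bd R ℕ (ins R x (bs R m)) = bs R m - ins R x (bd R ℕ (bs R m)) := by
  induction m with
  | nil => rw [ins_lt (by simp), bd_cons, bd_nil, map_zero, map_zero]
  | cons y m ih =>
    have hy : ∀ z ∈ m, y < z := fun z hz => List.rel_of_pairwise_cons hm hz
    have hm' : Sor m := (List.pairwise_cons.1 hm).2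
    rcases lt_trichotomy x y with h | h | h
    · have hall : ∀ z ∈ y :: m, x < z := by
        intro z hz
        rcases List.mem_cons.1 hz with rfl | hz
        · exact h
        · exact h.trans (hy z hz)
      rw [ins_lt hall, bd_cons, ins_gt]
      apply (Supp.bs (P := fun l => ∀ z ∈ l, x < z) hall).bd
      intro l hl i _ z hz
      exact hl z ((List.eraseIdx_sublist l i).subset hz)
    · subst h
      have e : ins R x (bs R (x :: m)) = 0 := by
        rw [← cone_bs, ins_cone_self]
      rw [e, map_zero, bd_cons, map_sub, ins_cone_self, sub_zero, ins_lt hy, sub_self]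
    · have e : ins R x (bs R (y :: m)) = - cone R y (ins R x (bs R m)) := by
        rw [← cone_bs, ins_cone_gt h]
      rw [e, map_neg, bd_cone, ih hm', bd_cons, map_sub (ins R x), ins_cone_gt h,
        map_sub (cone R y), cone_bs]
      abel

variable (R) in
/-- sorting with sign. -/
noncomputable def orF : List ℕ → OCh R ℕ
  | [] => bs R []
  | x :: l => ins R x (orF l)

variable (R) in
/-- the sorting operator. -/
noncomputable def srt : OCh R ℕ →ₗ[R] OCh R ℕ := ext R (orF R)

theorem srt_nil : srt R (bs R []) = bs R [] := by simp [srt, orF]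

theorem srt_cone (x : ℕ) (c : OCh R ℕ) : srt R (cone R x c) = ins R x (srt R c) := by
  have : srt R ∘ₗ cone R x = ins R x ∘ₗ srt R := by
    apply lin_ext
    intro l
    simp only [LinearMap.comp_apply, cone_bs, srt, ext_bs, orF]
  exact LinearMap.congr_fun this c

theorem srt_cons (x : ℕ) (l : List ℕ) : srt R (bs R (x :: l)) = ins R x (srt R (bs R l)) := by
  rw [← cone_bs, srt_cone]

theorem supp_ins {x : ℕ} {m : List ℕ} (hm : Sor m) :
    Supp (fun m' => Sor m' ∧ ∀ z ∈ m', z = x ∨ z ∈ m) (ins R x (bs R m)) := by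
  induction m with
  | nil =>
    rw [ins_lt (by simp)]
    apply Supp.bs
    exact ⟨List.pairwise_singleton _ _, by simp⟩
  | cons y m ih =>
    have hy : ∀ z ∈ m, y < z := fun z hz => List.rel_of_pairwise_cons hm hz
    have hm' : Sor m := (List.pairwise_cons.1 hm).2
    rcases lt_trichotomy x y with h | h | h
    · have hall : ∀ z ∈ y :: m, x < z := by
        intro z hz
        rcases List.mem_cons.1 hz with rfl | hz
        · exact h
        · exact h.trans (hy z hz)
      rw [ins_lt hall]
      apply Supp.bs
      refine ⟨List.pairwise_cons.2 ⟨hall, hm⟩, ?_⟩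
      intro z hz
      rcases List.mem_cons.1 hz with rfl | hz
      · exact Or.inl rfl
      · exact Or.inr hz
    · subst h
      rw [← cone_bs, ins_cone_self]
      exact Supp.zero
    · rw [← cone_bs, ins_cone_gt h]
      have := ((ih hm').cone (Q := fun m' => Sor m' ∧ ∀ z ∈ m', z = x ∨ z ∈ y :: m) y (by
        rintro l ⟨h1, h2⟩
        refine ⟨List.pairwise_cons.2 ⟨?_, h1⟩, ?_⟩
        · intro z hz
          rcases h2 z hz with rfl | h3
          · exact h
          · exact hy z h3
        · intro z hz
          rcases List.mem_cons.1 hz with rfl | hz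
          · exact Or.inr (by simp)
          · rcases h2 z hz with h3 | h3
            · exact Or.inl h3
            · exact Or.inr (List.mem_cons_of_mem _ h3))).smul (-1 : R)
      simpa using this

theorem supp_srt (l : List ℕ) :
    Supp (fun m => Sor m ∧ ∀ z ∈ m, z ∈ l) (srt R (bs R l)) := by
  induction l with
  | nil =>
    rw [srt_nil]
    exact Supp.bs ⟨List.Pairwise.nil, by simp⟩
  | cons x l ih =>
    rw [srt_cons]
    apply ih.lin
    rintro m ⟨h1, h2⟩
    apply (supp_ins h1).mono
    rintro m' ⟨h3, h4⟩
    refine ⟨h3, ?_⟩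
    intro z hz
    rcases h4 z hz with h5 | h5
    · rw [h5]; exact List.mem_cons_self
    · exact List.mem_cons_of_mem _ (h2 z h5)

theorem bd_srt (c : OCh R ℕ) : bd R ℕ (srt R c) = srt R (bd R ℕ c) := by
  have : bd R ℕ ∘ₗ srt R = srt R ∘ₗ bd R ℕ := by
    apply lin_ext
    intro l
    simp only [LinearMap.comp_apply]
    induction l with
    | nil => rw [srt_nil, bd_nil, map_zero]
    | cons x l ih =>
      have h1 : bd R ℕ (ins R x (srt R (bs R l))) =
          srt R (bs R l) - ins R x (bd R ℕ (srt R (bs R l))) := by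
        have := (supp_srt (R := R) l).congr (bd R ℕ ∘ₗ ins R x)
          (LinearMap.id - ins R x ∘ₗ bd R ℕ) (by
            rintro m ⟨hm, _⟩
            simp only [LinearMap.comp_apply, LinearMap.sub_apply, LinearMap.id_apply]
            exact bd_ins hm)
        simpa using this
      rw [srt_cons, h1, ih, bd_cons, map_sub, srt_cone]
  exact LinearMap.congr_fun this c

theorem srt_sor {l : List ℕ} (hl : Sor l) : srt R (bs R l) = bs R l := by
  induction l with
  | nil => exact srt_nil
  | cons x l ih =>
    rw [srt_cons, ih (List.pairwise_cons.1 hl).2,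
      ins_lt (fun z hz => List.rel_of_pairwise_cons hl hz)]

/-- every cycle is homologous to its sorted version. -/
theorem srt_homotopy {K : Set (Finset ℕ)} (hK : Down K) {c : OCh R ℕ}
    (hc : Supp (fun l => l.toFinset ∈ K) c) (hb : bd R ℕ c = 0) :
    ∃ w : OCh R ℕ, Supp (fun l => l.toFinset ∈ K) w ∧ bd R ℕ w = srt R c - c := by
  refine ⟨ho R (fun l => (srt R - LinearMap.id : OCh R ℕ →ₗ[R] OCh R ℕ) (bs R l))
    (fun l => l.headI) c, ?_, ?_⟩
  · apply hc.lin
    intro l hl
    apply (supp_ho (R := R) _ (fun l : List ℕ => l.headI) (fun l m => ∀ z ∈ m, z ∈ l)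
      ?_ ?_ ?_ l).mono
    · intro m hm
      apply hK _ hl
      intro z hz
      rw [List.mem_toFinset] at hz ⊢
      exact hm z hz
    · intro l _
      simp only [LinearMap.sub_apply, LinearMap.id_apply]
      exact ((supp_srt l).mono (fun m hm => hm.2)).sub (Supp.bs (fun z hz => hz))
    · intro l i _ m hm z hz
      exact (List.eraseIdx_sublist l i).subset (hm z hz)
    · intro l hl' m hm z hz
      rcases List.mem_cons.1 hz with hz | hz
      · rw [hz]
        rcases l with _ | ⟨a, l⟩
        · exact absurd rfl hl'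
        · simp
      · exact hm z hz
  · have := bd_ho (R := R) (srt R - LinearMap.id : OCh R ℕ →ₗ[R] OCh R ℕ) (by
      intro c
      simp only [LinearMap.sub_apply, LinearMap.id_apply, map_sub, bd_srt]) (by
      simp only [LinearMap.sub_apply, LinearMap.id_apply, srt_nil, sub_self])
      (fun l => l.headI) c
    rw [this, hb, map_zero, sub_zero, LinearMap.sub_apply, LinearMap.id_apply]

theorem supp_srt_in {K : Set (Finset ℕ)} (hK : Down K) {c : OCh R ℕ}
    (hc : Supp (fun l => l.toFinset ∈ K) c) :
    Supp (fun l => Sor l ∧ l.toFinset ∈ K) (srt R c) := by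
  apply hc.lin
  intro l hl
  apply (supp_srt l).mono
  rintro m ⟨h1, h2⟩
  refine ⟨h1, hK _ hl _ ?_⟩
  intro z hz
  rw [List.mem_toFinset] at hz ⊢
  exact h2 z hz

/-! ### explicit chains -/

variable (R) in
/-- explicit integral chains. -/
noncomputable def ch (L : List (ℤ × List ℕ)) : OCh R ℕ :=
  (L.map (fun p => (p.1 : R) • bs R p.2)).sum

@[simp] theorem ch_nil : ch R [] = 0 := rfl

theorem ch_cons (p : ℤ × List ℕ) (L : List (ℤ × List ℕ)) :
    ch R (p :: L) = (p.1 : R) • bs R p.2 + ch R L := by
  simp [ch]

theorem ch_append (L M : List (ℤ × List ℕ)) : ch R (L ++ M) = ch R L + ch R M := by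
  simp [ch]

/-- scaling. -/
def sml (c : ℤ) (L : List (ℤ × List ℕ)) : List (ℤ × List ℕ) := L.map (fun p => (c * p.1, p.2))

theorem ch_sml (c : ℤ) (L : List (ℤ × List ℕ)) : ch R (sml c L) = (c : R) • ch R L := by
  induction L with
  | nil => simp [sml]
  | cons p L ih =>
    have : sml c (p :: L) = (c * p.1, p.2) :: sml c L := rfl
    rw [this, ch_cons, ch_cons, ih, smul_add, smul_smul]
    push_cast
    rfl

/-- boundary of a sequence, explicit. -/
def bdL : List ℕ → List (ℤ × List ℕ)
  | [] => []
  | x :: l => (1, l) :: (bdL l).map (fun p => (-p.1, x :: p.2))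

theorem ch_bdL (l : List ℕ) : ch R (bdL l) = bd R ℕ (bs R l) := by
  induction l with
  | nil => rw [bdL, ch_nil, bd_nil]
  | cons x l ih =>
    rw [bdL, ch_cons, bd_cons, ← ih]
    have : ∀ L : List (ℤ × List ℕ), ch R (L.map (fun p => (-p.1, x :: p.2))) =
        - cone R x (ch R L) := by
      intro L
      induction L with
      | nil => simp
      | cons p L ih =>
        rw [List.map_cons, ch_cons, ih, ch_cons, map_add, map_smul, cone_bs]
        push_cast
        rw [neg_smul, neg_add]
    rw [this]
    push_cast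
    rw [one_smul]
    abel

/-- extending a map on sequences to explicit chains. -/
def bnd (f : List ℕ → List (ℤ × List ℕ)) (L : List (ℤ × List ℕ)) : List (ℤ × List ℕ) :=
  L.flatMap (fun p => sml p.1 (f p.2))

theorem ch_bnd (f : List ℕ → List (ℤ × List ℕ)) (T : OCh R ℕ →ₗ[R] OCh R ℕ)
    (h : ∀ l, ch R (f l) = T (bs R l)) (L : List (ℤ × List ℕ)) :
    ch R (bnd f L) = T (ch R L) := by
  induction L with
  | nil => simp [bnd]
  | cons p L ih =>
    have : bnd f (p :: L) = sml p.1 (f p.2) ++ bnd f L := rfl
    rw [this, ch_append, ch_sml, h, ih, ch_cons, map_add, map_smul]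

/-- equality of lists of numbers. -/
def leq : List ℕ → List ℕ → Bool
  | [], [] => true
  | [], _ :: _ => false
  | _ :: _, [] => false
  | a :: l, b :: m => a.beq b && leq l m

theorem leq_iff (l m : List ℕ) : leq l m = true ↔ l = m := by
  induction l generalizing m with
  | nil =>
    cases m with
    | nil => simp [leq]
    | cons b m => simp [leq]
  | cons a l ih =>
    cases m with
    | nil => simp [leq]
    | cons b m =>
      rw [leq, Bool.and_eq_true, ih, List.cons.injEq]
      simp [Nat.beq_eq]

/-- coefficient. -/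
def coe (L : List (ℤ × List ℕ)) (m : List ℕ) : ℤ :=
  L.foldr (fun p s => if leq p.2 m then p.1 + s else s) 0

theorem ch_apply (L : List (ℤ × List ℕ)) (m : List ℕ) : (ch R L) m = (coe L m : R) := by
  induction L with
  | nil => simp [coe]
  | cons p L ih =>
    rw [ch_cons, Finsupp.add_apply, Finsupp.smul_apply, ih]
    have : coe (p :: L) m = if leq p.2 m then p.1 + coe L m else coe L m := rfl
    rw [this]
    by_cases h : leq p.2 m = true
    · rw [if_pos h]
      rw [leq_iff] at h
      rw [h]
      simp [bs]
    · rw [if_neg h]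
      rw [leq_iff] at h
      simp [bs, h]

/-- the chain vanishes modulo `p`. -/
def nul (p : ℕ) (L : List (ℤ × List ℕ)) : Bool := L.all (fun q => coe L q.2 % (p : ℤ) == 0)

theorem nul_sound {p : ℕ} [CharP R p] {L : List (ℤ × List ℕ)} (h : nul p L = true) :
    ch R L = 0 := by
  ext m
  rw [ch_apply, Finsupp.zero_apply]
  by_cases hm : ∃ q ∈ L, q.2 = m
  · obtain ⟨q, hq, rfl⟩ := hm
    rw [nul, List.all_eq_true] at h
    have := h q hq
    rw [beq_iff_eq] at this
    rw [CharP.intCast_eq_zero_iff R p]
    exact Int.dvd_of_emod_eq_zero this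
  · have : coe L m = 0 := by
      clear h
      induction L with
      | nil => rfl
      | cons p' L ih =>
        have e : coe (p' :: L) m = if leq p'.2 m then p'.1 + coe L m else coe L m := rfl
        rw [e, if_neg]
        · apply ih
          rintro ⟨q, hq, hq'⟩
          exact hm ⟨q, List.mem_cons_of_mem _ hq, hq'⟩
        · rw [leq_iff]
          intro h'
          exact hm ⟨p', List.mem_cons_self, h'⟩
    rw [this, Int.cast_zero]

/-! ### enumeration of faces -/

/-- all increasing independent sequences with entries in a given list. -/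
def gen (adj : ℕ → ℕ) : List ℕ → List (List ℕ)
  | [] => [[]]
  | v :: vs => gen adj vs ++
      ((gen adj vs).filter (fun l => l.all (fun x => !(adj v).testBit x))).map (v :: ·)

theorem nil_mem_gen (adj : ℕ → ℕ) (vs : List ℕ) : [] ∈ gen adj vs := by
  induction vs with
  | nil => simp [gen]
  | cons v vs ih => rw [gen]; exact List.mem_append_left _ ih

theorem mem_gen (adj : ℕ → ℕ) {vs : List ℕ} (hvs : Sor vs) {l : List ℕ} (hl : Sor l)
    (h1 : ∀ x ∈ l, x ∈ vs) (h2 : ∀ x ∈ l, ∀ y ∈ l, (adj x).testBit y = false) :
    l ∈ gen adj vs := by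
  induction vs generalizing l with
  | nil =>
    rcases l with _ | ⟨a, l⟩
    · simp [gen]
    · have := h1 a (by simp)
      simp at this
  | cons v vs ih =>
    rcases l with _ | ⟨a, l⟩
    · exact nil_mem_gen _ _
    · have hv : ∀ z ∈ vs, v < z := fun z hz => List.rel_of_pairwise_cons hvs hz
      have hvs' : Sor vs := (List.pairwise_cons.1 hvs).2
      have ha : ∀ z ∈ l, a < z := fun z hz => List.rel_of_pairwise_cons hl hz
      have hl' : Sor l := (List.pairwise_cons.1 hl).2
      rw [gen, List.mem_append]
      rcases List.mem_cons.1 (h1 a (by simp)) with rfl | hav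
      · right
        rw [List.mem_map]
        refine ⟨l, ?_, rfl⟩
        rw [List.mem_filter]
        constructor
        · apply ih hvs' hl'
          · intro x hx
            rcases List.mem_cons.1 (h1 x (List.mem_cons_of_mem _ hx)) with h | h
            · have := ha x hx
              omega
            · exact h
          · intro x hx y hy
            exact h2 x (List.mem_cons_of_mem _ hx) y (List.mem_cons_of_mem _ hy)
        · rw [List.all_eq_true]
          intro x hx
          rw [h2 a (by simp) x (List.mem_cons_of_mem _ hx)]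
          rfl
      · left
        have hva := hv a hav
        apply ih hvs' hl
        · intro x hx
          rcases List.mem_cons.1 (h1 x hx) with h | h
          · rcases List.mem_cons.1 hx with h' | h'
            · omega
            · have := ha x h'
              omega
          · exact h
        · exact h2

/-- the vertices of a mask, increasing, all less than `W`. -/
def vl (W S : ℕ) : List ℕ := (List.range W).filter (fun v => S.testBit v)

theorem sor_vl (W S : ℕ) : Sor (vl W S) :=
  (List.pairwise_lt_range (n := W)).filter _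

theorem mem_vl {W S : ℕ} (hS : S < 2 ^ W) {x : ℕ} (h : S.testBit x = true) : x ∈ vl W S := by
  rw [vl, List.mem_filter, List.mem_range]
  refine ⟨?_, h⟩
  by_contra hx
  push Not at hx
  have : S.testBit x = false := by
    apply Nat.testBit_lt_two_pow
    exact lt_of_lt_of_le hS (Nat.pow_le_pow_right (by norm_num) hx)
  rw [this] at h
  exact absurd h (by simp)

/-- is an independent sequence in `S`. -/
def isF (adj : ℕ → ℕ) (S : ℕ) (l : List ℕ) : Bool :=
  l.all (fun x => S.testBit x && l.all (fun y => !(adj x).testBit y))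

theorem isF_sound {adj : ℕ → ℕ} {S : ℕ} {l : List ℕ} (h : isF adj S l = true) :
    l.toFinset ∈ Ind adj S := by
  rw [isF, List.all_eq_true] at h
  constructor
  · intro x hx
    rw [List.mem_toFinset] at hx
    have := h x hx
    rw [Bool.and_eq_true] at this
    exact this.1
  · intro x hx y hy
    rw [List.mem_toFinset] at hx hy
    have := h x hx
    rw [Bool.and_eq_true, List.all_eq_true] at this
    simpa using this.2 y hy

/-- table look-up. -/
def tb (T : List (List ℕ × List (ℤ × List ℕ))) (l : List ℕ) : List (ℤ × List ℕ) :=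
  match T with
  | [] => []
  | q :: T => if leq q.1 l then q.2 else tb T l

/-- checking a contraction modulo `p`. -/
def chkC (p W : ℕ) (adj : ℕ → ℕ) (S : ℕ) (T : List (List ℕ × List (ℤ × List ℕ))) : Bool :=
  Nat.ble (S + 1) (2 ^ W) &&
  (gen adj (vl W S)).all (fun l =>
    nul p (bnd bdL (tb T l) ++ (bnd (tb T) (bdL l) ++ [(-1, l)])) &&
    (tb T l).all (fun q => isF adj S q.2))

theorem chkC_sound {p W : ℕ} [CharP R p] {adj : ℕ → ℕ} {S : ℕ}
    {T : List (List ℕ × List (ℤ × List ℕ))} (h : chkC p W adj S T = true) :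
    Acyc R (Ind adj S) := by
  rw [chkC, Bool.and_eq_true, List.all_eq_true] at h
  obtain ⟨hS, h⟩ := h
  have hS' : S < 2 ^ W := Nat.le_of_ble_eq_true hS
  have hmem : ∀ l : List ℕ, Sor l → l.toFinset ∈ Ind adj S → l ∈ gen adj (vl W S) := by
    intro l hl hl'
    apply mem_gen adj (sor_vl W S) hl
    · intro x hx
      exact mem_vl hS' (hl'.1 x (List.mem_toFinset.2 hx))
    · intro x hx y hy
      exact hl'.2 x (List.mem_toFinset.2 hx) y (List.mem_toFinset.2 hy)
  set H : OCh R ℕ →ₗ[R] OCh R ℕ := ext R (fun l => ch R (tb T l)) with hH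
  have hHb : ∀ l, ch R (tb T l) = H (bs R l) := by
    intro l
    rw [hH, ext_bs]
  have hT : ∀ l, Sor l → l.toFinset ∈ Ind adj S →
      bd R ℕ (H (bs R l)) + H (bd R ℕ (bs R l)) = bs R l := by
    intro l hl hl'
    have h1 := h l (hmem l hl hl')
    rw [Bool.and_eq_true] at h1
    have h2 := nul_sound (R := R) h1.1
    rw [ch_append, ch_append, ch_bnd bdL (bd R ℕ) ch_bdL, ch_bnd (tb T) H hHb, ch_bdL,
      hHb, ch_cons, ch_nil] at h2
    push_cast at h2
    rw [add_zero, neg_smul, one_smul] at h2
    rw [← sub_eq_zero, ← h2]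
    abel
  intro z hz hbz
  obtain ⟨w, hw, hbw⟩ := srt_homotopy (down_ind adj S) hz hbz
  have hs := supp_srt_in (down_ind adj S) hz
  have hbs : bd R ℕ (srt R z) = 0 := by rw [bd_srt, hbz, map_zero]
  refine ⟨H (srt R z) - w, ?_, ?_⟩
  · apply Supp.sub _ hw
    apply hs.lin
    rintro l ⟨hl, hl'⟩
    have h1 := h l (hmem l hl hl')
    rw [Bool.and_eq_true, List.all_eq_true] at h1
    rw [← hHb]
    have h2 := h1.2
    clear h1
    generalize tb T l = L at h2
    induction L with
    | nil => exact Supp.zero
    | cons q L ih =>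
      rw [ch_cons]
      apply Supp.add
      · exact (Supp.bs (isF_sound (h2 q List.mem_cons_self))).smul _
      · exact ih (fun q' hq' => h2 q' (List.mem_cons_of_mem _ hq'))
  · have h3 : bd R ℕ (H (srt R z)) + H (bd R ℕ (srt R z)) = srt R z := by
      have := hs.congr (bd R ℕ ∘ₗ H + H ∘ₗ bd R ℕ) LinearMap.id (by
        rintro l ⟨hl, hl'⟩
        simp only [LinearMap.add_apply, LinearMap.comp_apply, LinearMap.id_apply]
        exact hT l hl hl')
      simpa using this
    rw [hbs, map_zero, add_zero] at h3
    rw [map_sub, h3, hbw]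
    abel

/-- checking a nonzero top-dimensional cycle modulo `p`. -/
def chkT (p W : ℕ) (adj : ℕ → ℕ) (S : ℕ) (n : ℕ) (t : List ℕ) (Z : List (ℤ × List ℕ)) : Bool :=
  Nat.ble (S + 1) (2 ^ W) &&
  ((gen adj (vl W S)).all (fun l => Nat.ble l.length n) &&
  (Z.all (fun q => isF adj S q.2 && decide (q.2.Pairwise (· < ·))) &&
  (nul p (bnd bdL Z) && (decide (t.length = n) && !(coe Z t % (p : ℤ) == 0)))))

theorem chkT_sound {p W : ℕ} [CharP R p] {adj : ℕ → ℕ} {S n : ℕ} {t : List ℕ}
    {Z : List (ℤ × List ℕ)} (h : chkT p W adj S n t Z = true) : ¬ Acyc R (Ind adj S) := by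
  rw [chkT, Bool.and_eq_true, Bool.and_eq_true, Bool.and_eq_true, Bool.and_eq_true,
    Bool.and_eq_true, List.all_eq_true, List.all_eq_true] at h
  obtain ⟨hS, hlen, hZ, hnul, htn, hcoe⟩ := h
  have hS' : S < 2 ^ W := Nat.le_of_ble_eq_true hS
  have hmem : ∀ l : List ℕ, Sor l → l.toFinset ∈ Ind adj S → l ∈ gen adj (vl W S) := by
    intro l hl hl'
    apply mem_gen adj (sor_vl W S) hl
    · intro x hx
      exact mem_vl hS' (hl'.1 x (List.mem_toFinset.2 hx))
    · intro x hx y hy
      exact hl'.2 x (List.mem_toFinset.2 hx) y (List.mem_toFinset.2 hy)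
  intro hac
  have hZs : Supp (fun l => Sor l ∧ l.toFinset ∈ Ind adj S) (ch R Z) := by
    clear hnul hcoe
    induction Z with
    | nil => exact Supp.zero
    | cons q Z ih =>
      rw [ch_cons]
      apply Supp.add
      · apply Supp.smul
        have := hZ q List.mem_cons_self
        rw [Bool.and_eq_true] at this
        exact Supp.bs ⟨of_decide_eq_true (p := q.2.Pairwise (· < ·)) this.2, isF_sound this.1⟩
      · exact ih (fun q' hq' => hZ q' (List.mem_cons_of_mem _ hq'))
  have hbZ : bd R ℕ (ch R Z) = 0 := by
    rw [← ch_bnd bdL (bd R ℕ) ch_bdL]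
    exact nul_sound hnul
  obtain ⟨w, hw, hbw⟩ := hac (ch R Z) (hZs.mono (fun l hl => hl.2)) hbZ
  have h1 : bd R ℕ (srt R w) = ch R Z := by
    rw [bd_srt, hbw]
    have := hZs.congr (srt R) LinearMap.id (by
      rintro l ⟨hl, _⟩
      rw [LinearMap.id_apply]
      exact srt_sor hl)
    simpa using this
  have h2 : Supp (fun l => l.length ≤ n) (srt R w) :=
    (supp_srt_in (down_ind adj S) hw).mono (fun l hl =>
      Nat.le_of_ble_eq_true (hlen l (hmem l hl.1 hl.2)))
  have h3 : Supp (fun l => l.length + 1 ≤ n) (bd R ℕ (srt R w)) := by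
    apply h2.bd
    intro l hl i hi
    rw [List.length_eraseIdx_of_lt hi]
    omega
  have htn' : t.length = n := of_decide_eq_true htn
  have h4 := h3 t (by omega)
  rw [h1, ch_apply, CharP.intCast_eq_zero_iff R p] at h4
  rw [Int.emod_eq_zero_of_dvd h4] at hcoe
  simp at hcoe

end

end Pool.Agent.OC
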