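import Pool.Agent.Lib_helper43.OC.Complex
import Pool.Agent.Lib_helper43.OC.Affine

set_option autoImplicit false
set_option linter.unusedSectionVars false

open Finset

/-! If `|L|` is a homotopy retract of `|K|` and `K` is acyclic then `L` is acyclic. -/

namespace Pool.Agent.OC

section
variable {R : Type*} [CommRing R]
variable {V W : Type*} [Fintype V] [DecidableEq V] [Fintype W] [DecidableEq W]

theorem mp_id' {X : Type*} (f : X → X) (hf : ∀ x, f x = x) (c : OCh R X) : mp R f c = c := by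
  have : mp R f = LinearMap.id := by
    apply lin_ext
    intro l
    rw [mp_bs, LinearMap.id_apply]
    congr 1
    have : f = id := funext hf
    rw [this, List.map_id]
  rw [this, LinearMap.id_apply]

/-- the empty sequence is a problem only in the trivial cases. -/
theorem map_small {K : Set (Finset V)} [Nonempty V] (hK : Down K) (h0 : ∅ ∈ K) {c : ℝ}
    (hc : c < 1 / (Fintype.card V : ℝ)) {X : Type*} (f : X → (V → ℝ)) (l : List X)
    (hf : ∀ x ∈ l, f x ∈ Geo K) (hd : ∀ x ∈ l, ∀ y ∈ l, dist (f x) (f y) ≤ c) :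
    (l.map (fun x => am (f x))).toFinset ∈ K := by
  rcases l with _ | ⟨p, l⟩
  · simpa using h0
  · have hp := hf p (by simp)
    apply hK _ hp.2.2
    intro v hv
    simp only [List.mem_toFinset, List.mem_map] at hv
    obtain ⟨x, hx, rfl⟩ := hv
    exact am_mem_nb (mem_nb_of_dist (hf x hx) (hd x hx p (by simp))) hc

theorem pr_small {K : Set (Finset V)} [Nonempty V] (hK : Down K) (h0 : ∅ ∈ K) {c : ℝ}
    (hc : c < 1 / (Fintype.card V : ℝ)) {X : Type*} (f g : X → (V → ℝ)) (l : List X)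
    (hf : ∀ x ∈ l, f x ∈ Geo K) (hg : ∀ x ∈ l, g x ∈ Geo K)
    (hd : ∀ x ∈ l, ∀ y ∈ l, dist (f x) (f y) ≤ c ∧ dist (g x) (f y) ≤ c) :
    Supp (fun m => m.toFinset ∈ K) (pr R (fun x => am (f x)) (fun x => am (g x)) (bs R l)) := by
  apply (supp_pr (fun x => am (f x)) (fun x => am (g x)) l).mono
  intro m hm
  rcases l with _ | ⟨p, l⟩
  · have : m = [] := by
      rcases m with _ | ⟨a, m⟩
      · rfl
      · obtain ⟨x, hx, _⟩ := hm a (by simp)
        simp at hx
    rw [this]
    simpa using h0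
  · have hp := hf p (by simp)
    apply hK _ hp.2.2
    intro v hv
    rw [List.mem_toFinset] at hv
    obtain ⟨x, hx, h | h⟩ := hm v hv
    · rw [h]
      exact am_mem_nb (mem_nb_of_dist (hf x hx) (hd x hx p (by simp)).1) hc
    · rw [h]
      exact am_mem_nb (mem_nb_of_dist (hg x hx) (hd x hx p (by simp)).2) hc

theorem dist_simplex_le {x y : V → ℝ} (hx : x ∈ Nb 0 (univ : Finset V))
    (hy : y ∈ Nb 0 (univ : Finset V)) : dist x y ≤ 1 := by
  rw [dist_pi_le_iff zero_le_one]
  intro j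
  rw [Real.dist_eq, abs_le]
  have h1 := hx.1 j
  have h2 := hy.1 j
  have h3 := coord_le_one hx j
  have h4 := coord_le_one hy j
  constructor <;> linarith

/-- replacing a simplicial cycle by a cycle of small sequences of points. -/
theorem start [Nonempty W] {L : Set (Finset W)} (hL : Down L) {z : OCh R W}
    (hz : Supp (fun l => l.toFinset ∈ L) z) (hb : bd R W z = 0) {δ : ℝ} (hδ : 0 < δ) :
    ∃ Y : OCh R (W → ℝ), Supp (fun l => (∀ x ∈ l, x ∈ Geo L) ∧ DL δ l) Y ∧
      bd R _ Y = 0 ∧ ∃ u : OCh R W, Supp (fun l => l.toFinset ∈ L) u ∧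
        z = mp R am Y - bd R W u := by
  set Z := mp R vx z with hZdef
  have hZ : Supp (fun l => ∃ A ∈ L, ∀ x ∈ l, x ∈ Nb 0 A) Z := by
    apply hz.mp vx
    intro l hl
    refine ⟨l.toFinset, hl, ?_⟩
    intro x hx
    obtain ⟨v, hv, rfl⟩ := List.mem_map.1 hx
    exact vx_mem (List.mem_toFinset.2 hv)
  have hbZ : bd R _ Z = 0 := by rw [hZdef, bd_mp, hb, map_zero]
  obtain ⟨M, hM⟩ := exists_fine hZ zero_le_one (by
    rintro l ⟨A, _, hA⟩ x hx y hy
    exact dist_simplex_le (nb_subset_simplex A (hA x hx)) (nb_subset_simplex A (hA y hy))) hδ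
  refine ⟨gI R _ M Z, ?_, ?_, mp R am (gH R _ M Z), ?_, ?_⟩
  · apply hM.mono
    rintro m ⟨h1, l, ⟨A, hA, hl⟩, h2⟩
    refine ⟨?_, h1⟩
    intro x hx
    exact nb_subset_geo hL hA (hull_subset (convex_nb 0 A) hl (h2 x hx))
  · rw [bd_gI, hbZ, map_zero]
  · apply hZ.lin (mp R am ∘ₗ gH R _ M)
    rintro l ⟨A, hA, hl⟩
    rw [LinearMap.comp_apply]
    apply (supp_gH M l).mp am
    intro m hm
    apply hL A hA
    intro v hv
    simp only [List.mem_toFinset, List.mem_map] at hv
    obtain ⟨x, hx, rfl⟩ := hv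
    apply am_mem_nb (hull_subset (convex_nb 0 A) hl (hm x hx))
    have : 0 < Fintype.card W := Fintype.card_pos
    positivity
  · rw [bd_mp, bd_gH, hbZ, map_zero, sub_zero, map_sub, sub_sub_cancel, hZdef, mp_mp,
      mp_id' (am ∘ vx) am_vx]

/-- filling a small cycle in the realization of an acyclic complex. -/
theorem fill [Nonempty V] {K : Set (Finset V)} (hK : Down K) (h0 : ∅ ∈ K) (hac : Acyc R K)
    {c : ℝ} (hc0 : 0 ≤ c) (hc : c < 1 / (Fintype.card V : ℝ)) {η : ℝ} (hη : 0 < η)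
    {Y : OCh R (V → ℝ)}
    (hY : Supp (fun l => (∀ x ∈ l, x ∈ Geo K) ∧ DL c l ∧ DL η l) Y) (hb : bd R _ Y = 0) :
    ∃ Q : OCh R (V → ℝ), Supp (fun m => DL η m ∧ ∃ A ∈ K, ∀ x ∈ m, x ∈ Nb c A) Q ∧
      bd R _ Q = Y := by
  -- lists of `Y` are in neighbourhoods of faces
  have hloc : ∀ l : List (V → ℝ), (∀ x ∈ l, x ∈ Geo K) → DL c l →
      ∃ A ∈ K, ∀ x ∈ l, x ∈ Nb c A ∧ am x ∈ A := by
    intro l hl hd
    rcases l with _ | ⟨p, l⟩
    · exact ⟨∅, h0, by simp⟩
    · refine ⟨spt p, (hl p (by simp)).2.2, ?_⟩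
      intro x hx
      have h1 := mem_nb_of_dist (hl x hx) (hd x hx p (by simp))
      exact ⟨h1, am_mem_nb h1 hc⟩
  obtain ⟨u, hu, hbu⟩ := hac (mp R am Y) (by
    apply hY.mp am
    rintro l ⟨h1, h2, _⟩
    obtain ⟨A, hA, h3⟩ := hloc l h1 h2
    apply hK A hA
    intro v hv
    simp only [List.mem_toFinset, List.mem_map] at hv
    obtain ⟨x, hx, rfl⟩ := hv
    exact (h3 x hx).2) (by rw [bd_mp, hb, map_zero])
  set P := pr R (fun x : V → ℝ => (vx (am x) : V → ℝ)) (fun x => x) Y + mp R vx u with hPdef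
  have hP : Supp (fun m => ∃ A ∈ K, ∀ x ∈ m, x ∈ Nb c A) P := by
    apply Supp.add
    · apply hY.lin
      rintro l ⟨h1, h2, _⟩
      obtain ⟨A, hA, h3⟩ := hloc l h1 h2
      apply (supp_pr _ _ l).mono
      intro m hm
      refine ⟨A, hA, ?_⟩
      intro y hy
      obtain ⟨x, hx, h | h⟩ := hm y hy
      · rw [h]
        exact nb_mono hc0 A (vx_mem (h3 x hx).2)
      · rw [h]
        exact (h3 x hx).1
    · apply hu.mp vx
      intro l hl
      refine ⟨l.toFinset, hl, ?_⟩
      intro x hx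
      obtain ⟨v, hv, rfl⟩ := List.mem_map.1 hx
      exact nb_mono hc0 _ (vx_mem (List.mem_toFinset.2 hv))
  have hbP : bd R _ P = Y := by
    rw [hPdef, map_add, bd_pr, hb, map_zero, sub_zero, bd_mp, hbu, mp_mp,
      mp_id' (fun x => x) (fun _ => rfl)]
    change Y - mp R (vx ∘ am) Y + mp R (vx ∘ am) Y = Y
    abel
  obtain ⟨M, hM⟩ := exists_fine hP zero_le_one (by
    rintro l ⟨A, _, hA⟩ x hx y hy
    exact dist_simplex_le (nb_subset_simplex A (hA x hx)) (nb_subset_simplex A (hA y hy))) hη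
  refine ⟨gI R _ M P - gH R _ M Y, ?_, ?_⟩
  · apply Supp.sub
    · apply hM.mono
      rintro m ⟨h1, l, ⟨A, hA, hl⟩, h2⟩
      exact ⟨h1, A, hA, fun x hx => hull_subset (convex_nb c A) hl (h2 x hx)⟩
    · apply hY.lin
      rintro l ⟨h1, h2, h3⟩
      obtain ⟨A, hA, h4⟩ := hloc l h1 h2
      apply (supp_gH M l).mono
      intro m hm
      refine ⟨h3.hull hm, A, hA, ?_⟩
      intro x hx
      exact hull_subset (convex_nb c A) (fun y hy => (h4 y hy).1) (hm x hx)
  · rw [map_sub, bd_gI, hbP, bd_gH, hb, map_zero, sub_zero, sub_sub_cancel]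

/-- uniform continuity in a convenient form. -/
theorem unif {α β : Type*} [PseudoMetricSpace α] [PseudoMetricSpace β] {f : α → β} {s : Set α}
    (hs : IsCompact s) (hf : ContinuousOn f s) {ε : ℝ} (hε : 0 < ε) :
    ∃ δ, 0 < δ ∧ ∀ x ∈ s, ∀ y ∈ s, dist x y ≤ δ → dist (f x) (f y) ≤ ε := by
  have h := hs.uniformContinuousOn_of_continuous hf
  rw [Metric.uniformContinuousOn_iff_le] at h
  obtain ⟨δ, hδ, h'⟩ := h ε hε
  exact ⟨δ, hδ, h'⟩

/-- the main step, nonempty case. -/
theorem retract_aux [Nonempty V] [Nonempty W] {K : Set (Finset V)} {L : Set (Finset W)}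
    (hK : Down K) (h0 : ∅ ∈ K) (hL : Down L) (h0L : ∅ ∈ L)
    (a : (W → ℝ) → (V → ℝ)) (b : (V → ℝ) → (W → ℝ)) (h : ℝ × (W → ℝ) → (W → ℝ))
    (ha : ContinuousOn a (Geo L)) (hb : ContinuousOn b (Geo K))
    (ha' : ∀ x ∈ Geo L, a x ∈ Geo K) (hb' : ∀ x ∈ Geo K, b x ∈ Geo L)
    (hh : ContinuousOn h (Set.Icc 0 1 ×ˢ Geo L))
    (hh' : ∀ t ∈ Set.Icc (0 : ℝ) 1, ∀ x ∈ Geo L, h (t, x) ∈ Geo L)
    (hh0 : ∀ x ∈ Geo L, h (0, x) = x) (hh1 : ∀ x ∈ Geo L, h (1, x) = b (a x))
    (hac : Acyc R K) : Acyc R L := by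
  intro z hz hbz
  have hnV : (0 : ℝ) < Fintype.card V := by exact_mod_cast Fintype.card_pos
  have hnW : (0 : ℝ) < Fintype.card W := by exact_mod_cast Fintype.card_pos
  set e : ℝ := 1 / (4 * (Fintype.card W : ℝ)) with he
  have he0 : 0 < e := by positivity
  have he3 : 3 * e < 1 / (Fintype.card W : ℝ) := by
    have : 1 / (Fintype.card W : ℝ) = 4 * e := by rw [he]; field_simp
    linarith
  have he1 : e < 1 / (Fintype.card W : ℝ) := by linarith
  obtain ⟨ηK, hηK, hbu⟩ := unif (isCompact_geo hK) hb he0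
  set c : ℝ := min (1 / (4 * (Fintype.card V : ℝ))) (ηK / (2 * (Fintype.card V : ℝ))) with hcdef
  have hc0 : 0 < c := by positivity
  have hc1 : (Fintype.card V : ℝ) * c ≤ 1 / 4 := by
    have : c ≤ 1 / (4 * (Fintype.card V : ℝ)) := min_le_left _ _
    calc (Fintype.card V : ℝ) * c ≤ (Fintype.card V : ℝ) * (1 / (4 * (Fintype.card V : ℝ))) :=
          mul_le_mul_of_nonneg_left this hnV.le
      _ = 1 / 4 := by field_simp
  have hc2 : 2 * ((Fintype.card V : ℝ) * c) ≤ ηK := by
    have : c ≤ ηK / (2 * (Fintype.card V : ℝ)) := min_le_right _ _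
    calc 2 * ((Fintype.card V : ℝ) * c)
        ≤ 2 * ((Fintype.card V : ℝ) * (ηK / (2 * (Fintype.card V : ℝ)))) := by
          apply mul_le_mul_of_nonneg_left _ zero_le_two
          exact mul_le_mul_of_nonneg_left this hnV.le
      _ = ηK := by field_simp
  have hc3 : c < 1 / (Fintype.card V : ℝ) := by
    rw [lt_div_iff₀ hnV, mul_comm]
    linarith
  have hrcK : ∀ x ∈ Geo K, rc c x ∈ Geo K := fun x hx =>
    nb_subset_geo hK hx.2.2 (rc_mem (by linarith) (nb_mono hc0.le _ (mem_nb_spt hx)))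
  have hdrc : ∀ x ∈ Geo K, dist (rc c x) x ≤ ηK := fun x hx =>
    (dist_rc hc0.le (by linarith) hx.1 hx.2.1).trans hc2
  obtain ⟨ηr, hηr, hru⟩ := unif (isCompact_nb 0 (univ : Finset V))
    (continuousOn_rc (c := c) (by linarith) univ 0) hηK
  obtain ⟨δa, hδa, hau⟩ := unif (isCompact_geo hL) ha
    (ε := min c (min ηK ηr)) (by positivity)
  obtain ⟨δh, hδh, hhu⟩ := unif (isCompact_Icc.prod (isCompact_geo hL)) hh he0
  obtain ⟨Y, hY, hbY, u0, hu0, hz0⟩ := start (R := R) hL hz hbz
    (δ := min δa (min δh e)) (by positivity)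
  -- the time steps
  obtain ⟨Q, hQ⟩ : ∃ Q : ℕ, 1 / ((Q : ℝ) + 1) < δh := exists_nat_one_div_lt hδh
  set N : ℕ := Q + 1 with hN
  have hN' : 1 / (N : ℝ) ≤ δh := by
    rw [hN]; push_cast; exact hQ.le
  have hN0 : (0 : ℝ) < N := by rw [hN]; push_cast; positivity
  have step1 : ∀ j : ℕ, j ≤ N → ∃ u : OCh R W, Supp (fun l => l.toFinset ∈ L) u ∧
      mp R am Y - mp R (fun x => am (h ((j : ℝ) / N, x))) Y = bd R W u := by
    intro j
    induction j with
    | zero =>
      intro _
      refine ⟨0, Supp.zero, ?_⟩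
      rw [map_zero, sub_eq_zero]
      apply hY.congr
      rintro l ⟨h1, _⟩
      rw [mp_bs, mp_bs]
      congr 1
      apply List.map_congr_left
      intro x hx
      rw [Nat.cast_zero, zero_div, hh0 x (h1 x hx)]
    | succ j ih =>
      intro hj
      obtain ⟨u, hu, hu'⟩ := ih (by omega)
      have ht0 : (j : ℝ) / N ∈ Set.Icc (0 : ℝ) 1 := by
        constructor
        · positivity
        · rw [div_le_one hN0]; exact_mod_cast (by omega : j ≤ N)
      have ht1 : ((j + 1 : ℕ) : ℝ) / N ∈ Set.Icc (0 : ℝ) 1 := by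
        constructor
        · positivity
        · rw [div_le_one hN0]; exact_mod_cast hj
      have htd : dist (((j + 1 : ℕ) : ℝ) / N) ((j : ℝ) / N) ≤ δh := by
        rw [Real.dist_eq]
        have : ((j + 1 : ℕ) : ℝ) / N - (j : ℝ) / N = 1 / N := by push_cast; ring
        rw [this, abs_of_pos (by positivity)]
        exact hN'
      refine ⟨u - pr R (fun x => am (h ((j : ℝ) / N, x)))
        (fun x => am (h (((j + 1 : ℕ) : ℝ) / N, x))) Y, ?_, ?_⟩
      · apply hu.sub
        apply hY.lin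
        rintro l ⟨h1, h2⟩
        apply pr_small hL h0L he1
        · intro x hx; exact hh' _ ht0 x (h1 x hx)
        · intro x hx; exact hh' _ ht1 x (h1 x hx)
        · intro x hx y hy
          have hxy : dist x y ≤ δh := (h2 x hx y hy).trans ((min_le_right _ _).trans (min_le_left _ _))
          constructor
          · apply hhu _ ⟨ht0, h1 x hx⟩ _ ⟨ht0, h1 y hy⟩
            rw [Prod.dist_eq, dist_self]
            exact max_le hδh.le hxy
          · apply hhu _ ⟨ht1, h1 x hx⟩ _ ⟨ht0, h1 y hy⟩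
            rw [Prod.dist_eq]
            exact max_le htd hxy
      · rw [map_sub, bd_pr, hbY, map_zero, sub_zero, ← hu']
        abel
  obtain ⟨u1, hu1, hu1'⟩ := step1 N le_rfl
  have e1 : mp R (fun x => am (h ((N : ℝ) / N, x))) Y = mp R (fun x => am (b (a x))) Y := by
    apply hY.congr
    rintro l ⟨h1, _⟩
    rw [mp_bs, mp_bs]
    congr 1
    apply List.map_congr_left
    intro x hx
    rw [div_self hN0.ne', hh1 x (h1 x hx)]
  rw [e1] at hu1'
  -- the pushed cycle in `K`
  set Y' := mp R a Y with hY'def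
  have hbY' : bd R _ Y' = 0 := by rw [hY'def, bd_mp, hbY, map_zero]
  have hY' : Supp (fun l => (∀ x ∈ l, x ∈ Geo K) ∧ DL c l ∧ DL ηK l ∧ DL ηr l) Y' := by
    apply hY.mp a
    rintro l ⟨h1, h2⟩
    have hd : DL (min c (min ηK ηr)) (l.map a) := by
      intro x hx y hy
      obtain ⟨x', hx', rfl⟩ := List.mem_map.1 hx
      obtain ⟨y', hy', rfl⟩ := List.mem_map.1 hy
      exact hau x' (h1 x' hx') y' (h1 y' hy') ((h2 x' hx' y' hy').trans (min_le_left _ _))
    refine ⟨?_, hd.mono (min_le_left _ _), hd.mono ((min_le_right _ _).trans (min_le_left _ _)),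
      hd.mono ((min_le_right _ _).trans (min_le_right _ _))⟩
    intro x hx
    obtain ⟨x', hx', rfl⟩ := List.mem_map.1 hx
    exact ha' x' (h1 x' hx')
  have e2 : mp R (fun x => am (b (a x))) Y = mp R (fun x => am (b x)) Y' := by
    rw [hY'def, mp_mp]
    rfl
  rw [e2] at hu1'
  -- comparison with the pushed map
  have hu2 : Supp (fun l => l.toFinset ∈ L)
      (pr R (fun x => am (b x)) (fun x => am (b (rc c x))) Y') := by
    apply hY'.lin
    rintro l ⟨h1, _, h3, _⟩
    apply pr_small hL h0L (c := 3 * e) he3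
    · intro x hx; exact hb' x (h1 x hx)
    · intro x hx; exact hb' _ (hrcK x (h1 x hx))
    · intro x hx y hy
      have g1 : dist (b x) (b y) ≤ e := hbu x (h1 x hx) y (h1 y hy) (h3 x hx y hy)
      have g2 : dist (b (rc c x)) (b x) ≤ e :=
        hbu _ (hrcK x (h1 x hx)) x (h1 x hx) (hdrc x (h1 x hx))
      have g3 := dist_triangle (b (rc c x)) (b x) (b y)
      constructor <;> linarith
  have hu2' := bd_pr (R := R) (fun x => am (b x)) (fun x => am (b (rc c x))) Y'
  rw [hbY', map_zero, sub_zero] at hu2'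
  -- filling
  obtain ⟨P, hP, hbP⟩ := fill (R := R) hK h0 hac hc0.le hc3 hηr
    (hY'.mono (fun l hl => ⟨hl.1, hl.2.1, hl.2.2.2⟩)) hbY'
  have hu3 : Supp (fun l => l.toFinset ∈ L) (mp R (fun x => am (b (rc c x))) P) := by
    apply hP.mp
    rintro l ⟨h1, A, hA, h2⟩
    apply map_small hL h0L he1 (fun x => b (rc c x))
    · intro x hx
      exact hb' _ (nb_subset_geo hK hA (rc_mem (by linarith) (h2 x hx)))
    · intro x hx y hy
      apply hbu _ (nb_subset_geo hK hA (rc_mem (by linarith) (h2 x hx))) _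
        (nb_subset_geo hK hA (rc_mem (by linarith) (h2 y hy)))
      exact hru x (nb_subset_simplex A (h2 x hx)) y (nb_subset_simplex A (h2 y hy)) (h1 x hx y hy)
  have hu3' : bd R _ (mp R (fun x => am (b (rc c x))) P) = mp R (fun x => am (b (rc c x))) Y' := by
    rw [bd_mp, hbP]
  refine ⟨u1 - pr R (fun x => am (b x)) (fun x => am (b (rc c x))) Y' +
    mp R (fun x => am (b (rc c x))) P - u0, ((hu1.sub hu2).add hu3).sub hu0, ?_⟩
  rw [map_sub, map_add, map_sub, ← hu1', hu2', hu3', hz0]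
  abel


/-- trivial coefficient ring. -/
theorem triv_of_bs_nil {X : Type*} (h : bs R ([] : List X) = 0) (c : OCh R X) : c = 0 := by
  have h1 : (1 : R) = 0 := by
    have := congrArg (fun f : OCh R X => f []) h
    simpa [bs] using this
  ext l
  calc c l = 1 * c l := (one_mul _).symm
    _ = 0 := by rw [h1, zero_mul]

open Classical in
/-- if `|L|` is a homotopy retract of `|K|` and `K` is acyclic then `L` is acyclic. -/
theorem retract_acyc {K : Set (Finset V)} {L : Set (Finset W)}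
    (hK : Down K) (h0 : ∅ ∈ K) (hL : Down L) (a : C(Geo L, Geo K)) (b : C(Geo K, Geo L))
    (hab : (b.comp a).Homotopic (ContinuousMap.id _)) (hac : Acyc R K) : Acyc R L := by
  by_cases hKe : ∃ v : V, {v} ∈ K
  · obtain ⟨v, hv⟩ := hKe
    have hV : Nonempty V := ⟨v⟩
    have hx0 : vx v ∈ Geo K := nb_subset_geo hK hv (vx_mem (by simp))
    have hW : Nonempty W := by
      by_contra hW
      have hW : IsEmpty W := not_nonempty_iff.1 hW
      have := (b ⟨vx v, hx0⟩).2.2.1
      simp at this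
    intro z hz hbz
    by_cases hLe : L = ∅
    · refine ⟨0, Supp.zero, ?_⟩
      rw [map_zero]
      symm
      ext l
      exact hz l (by simp [hLe])
    · obtain ⟨A, hA⟩ := Set.nonempty_iff_ne_empty.2 hLe
      have h0L : ∅ ∈ L := hL A hA ∅ (Finset.empty_subset A)
      obtain ⟨F⟩ := hab.symm
      have hcomp : ∀ x (hx : x ∈ Geo L), (fun x : W → ℝ => if h : x ∈ Geo L then
          (a ⟨x, h⟩ : V → ℝ) else 0) x = a ⟨x, hx⟩ := fun x hx => dif_pos hx
      have hcompb : ∀ x (hx : x ∈ Geo K), (fun x : V → ℝ => if h : x ∈ Geo K then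
          (b ⟨x, h⟩ : W → ℝ) else 0) x = b ⟨x, hx⟩ := fun x hx => dif_pos hx
      have key := retract_aux (R := R) hK h0 hL h0L
        (fun x => if h : x ∈ Geo L then (a ⟨x, h⟩ : V → ℝ) else 0)
        (fun x => if h : x ∈ Geo K then (b ⟨x, h⟩ : W → ℝ) else 0)
        (fun p => if h : p.1 ∈ Set.Icc (0 : ℝ) 1 ∧ p.2 ∈ Geo L then
          (F (⟨p.1, h.1⟩, ⟨p.2, h.2⟩) : W → ℝ) else 0)
        (by
          rw [continuousOn_iff_continuous_domRestrict]
          have : (Geo L).domRestrict (fun x : W → ℝ => if h : x ∈ Geo L then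
              (a ⟨x, h⟩ : V → ℝ) else 0) = fun x => (a x : V → ℝ) := by
            funext x
            exact dif_pos x.2
          rw [this]
          fun_prop)
        (by
          rw [continuousOn_iff_continuous_domRestrict]
          have : (Geo K).domRestrict (fun x : V → ℝ => if h : x ∈ Geo K then
              (b ⟨x, h⟩ : W → ℝ) else 0) = fun x => (b x : W → ℝ) := by
            funext x
            exact dif_pos x.2
          rw [this]
          fun_prop)
        (by
          intro x hx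
          rw [dif_pos hx]
          exact (a ⟨x, hx⟩).2)
        (by
          intro x hx
          rw [dif_pos hx]
          exact (b ⟨x, hx⟩).2)
        (by
          rw [continuousOn_iff_continuous_domRestrict]
          have : (Set.Icc (0 : ℝ) 1 ×ˢ Geo L).domRestrict (fun p : ℝ × (W → ℝ) =>
              if h : p.1 ∈ Set.Icc (0 : ℝ) 1 ∧ p.2 ∈ Geo L then
              (F (⟨p.1, h.1⟩, ⟨p.2, h.2⟩) : W → ℝ) else 0) =
              fun p => (F (⟨p.1.1, p.2.1⟩, ⟨p.1.2, p.2.2⟩) : W → ℝ) := by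
            funext p
            exact dif_pos p.2
          rw [this]
          fun_prop)
        (by
          intro t ht x hx
          rw [dif_pos ⟨ht, hx⟩]
          exact (F (⟨t, ht⟩, ⟨x, hx⟩)).2)
        (by
          intro x hx
          rw [dif_pos ⟨by simp, hx⟩]
          have : (⟨0, by simp⟩ : Set.Icc (0 : ℝ) 1) = 0 := rfl
          have h2 := F.apply_zero ⟨x, hx⟩
          have h3 : (F (⟨0, by simp⟩, ⟨x, hx⟩) : Geo L) = ⟨x, hx⟩ := by
            exact h2
          rw [h3])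
        (by
          intro x hx
          rw [dif_pos ⟨by simp, hx⟩]
          have h2 := F.apply_one ⟨x, hx⟩
          have h3 : (F (⟨1, by simp⟩, ⟨x, hx⟩) : Geo L) = b (a ⟨x, hx⟩) := by
            exact h2
          rw [h3, dif_pos hx, dif_pos (a ⟨x, hx⟩).2])
        hac
      exact key z hz hbz
  · obtain ⟨w, hw, hw'⟩ := hac (bs R []) (Supp.bs (by simpa using h0)) bd_nil
    have hnil : ∀ l : List V, l.toFinset ∈ K → l = [] := by
      intro l hl
      rcases l with _ | ⟨x, l⟩
      · rfl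
      · exact absurd ⟨x, hK _ hl {x} (by simp)⟩ hKe
    have : bd R V w = 0 := by
      have := (hw.mono hnil).congr (bd R V) 0 (by
        rintro l rfl
        rw [bd_nil, LinearMap.zero_apply])
      rw [this, LinearMap.zero_apply]
    rw [this] at hw'
    have h1 : (1 : R) = 0 := by
      have := congrArg (fun f : OCh R V => f []) hw'
      simpa [bs] using this.symm
    intro z _ _
    refine ⟨0, Supp.zero, ?_⟩
    ext l
    calc (bd R W 0) l = 0 := by simp
      _ = (1 : R) * z l := by rw [h1, zero_mul]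
      _ = z l := one_mul _

end

end Pool.Agent.OC
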