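import Pool.Agent.Lib_helper43.OC.Sphere
import Pool.Agent.Lib_helper43.OC.Retract

set_option autoImplicit false
set_option linter.unusedSectionVars false

open Finset

/-! Wedges of spheres. -/

namespace Pool.Agent.OC

/-- inclusion of a sphere. -/
def wedgeIn {ι : Type*} (d : ι → ℕ) (i : ι) : C(Sph (d i), Wedge d) where
  toFun x := Quot.mk _ (Sum.inr ⟨i, x⟩)
  continuous_toFun := by
    apply continuous_quot_mk.comp
    apply continuous_inr.comp
    exact continuous_sigmaMk

open Classical in
/-- collapse to a sphere, before the quotient. -/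
noncomputable def preOut {ι : Type*} (d : ι → ℕ) (i : ι) :
    Unit ⊕ (Σ i, Sph (d i)) → Sph (d i)
  | Sum.inl _ => base (d i)
  | Sum.inr ⟨j, x⟩ => if h : j = i then h ▸ x else base (d i)

theorem preOut_self {ι : Type*} (d : ι → ℕ) (i : ι) (x : Sph (d i)) :
    preOut d i (Sum.inr ⟨i, x⟩) = x := by
  simp [preOut]

/-- collapse to a sphere. -/
noncomputable def wedgeOut {ι : Type*} (d : ι → ℕ) (i : ι) : C(Wedge d, Sph (d i)) where
  toFun := Quot.lift (preOut d i) (by
    rintro _ _ ⟨j⟩
    by_cases h : j = i
    · subst h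
      rw [preOut_self]
      rfl
    · simp [preOut, h])
  continuous_toFun := by
    apply continuous_quot_lift
    rw [continuous_sum_dom]
    constructor
    · exact continuous_const
    · rw [continuous_sigma_iff]
      intro j
      by_cases h : j = i
      · subst h
        have : (preOut d j ∘ Sum.inr) ∘ (fun x => ⟨j, x⟩) = (id : Sph (d j) → Sph (d j)) := by
          funext x
          exact preOut_self d j x
        change Continuous ((preOut d j ∘ Sum.inr) ∘ (fun x => ⟨j, x⟩))
        rw [this]
        exact continuous_id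
      · have : (preOut d i ∘ Sum.inr) ∘ (fun x => ⟨j, x⟩) =
            (fun _ : Sph (d j) => base (d i)) := by
          funext x
          simp [preOut, h]
        change Continuous ((preOut d i ∘ Sum.inr) ∘ (fun x => ⟨j, x⟩))
        rw [this]
        exact continuous_const

theorem wedgeOut_in {ι : Type*} (d : ι → ℕ) (i : ι) (x : Sph (d i)) :
    wedgeOut d i (wedgeIn d i x) = x := preOut_self d i x

theorem subsingleton_wedge {ι : Type*} [IsEmpty ι] (d : ι → ℕ) (x y : Wedge d) : x = y := by
  induction x using Quot.ind with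
  | _ x =>
    induction y using Quot.ind with
    | _ y =>
      rcases x with ⟨⟩ | ⟨i, _⟩
      · rcases y with ⟨⟩ | ⟨i, _⟩
        · rfl
        · exact (IsEmpty.false i).elim
      · exact (IsEmpty.false i).elim

theorem acyc_univ_unit {R : Type*} [CommRing R] : Acyc R (Set.univ : Set (Finset Unit)) :=
  acyc_cone () (fun _ _ => Set.mem_univ _)

theorem mem_geo_unit : (fun _ : Unit => (1 : ℝ)) ∈ Geo (Set.univ : Set (Finset Unit)) :=
  ⟨fun _ => zero_le_one, by simp, Set.mem_univ _⟩

/-- A finite simplicial complex which is acyclic over one nonzero ring of coefficients and not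
acyclic over another one is not homotopy equivalent to a wedge of spheres. -/
theorem not_wedge {V : Type*} [Fintype V] [DecidableEq V] {K : Set (Finset V)} (hK : Down K)
    (h0 : ∅ ∈ K) {R₁ R₂ : Type*} [CommRing R₁] [Nontrivial R₁] [CommRing R₂]
    (h1 : Acyc R₁ K) (h2 : ¬ Acyc R₂ K) {ι : Type*} (d : ι → ℕ) :
    IsEmpty (ContinuousMap.HomotopyEquiv (Geo K) (Wedge d)) := by
  constructor
  intro e
  rcases isEmpty_or_nonempty ι with hι | ⟨⟨i⟩⟩
  · apply h2
    have pt : Wedge d := Quot.mk _ (Sum.inl ())
    apply retract_acyc (R := R₂) (K := (Set.univ : Set (Finset Unit))) (L := K)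
      (fun _ _ _ _ => Set.mem_univ _) (Set.mem_univ _) hK
      (ContinuousMap.const _ ⟨_, mem_geo_unit⟩) (ContinuousMap.const _ (e.invFun pt)) _
      acyc_univ_unit
    have : (ContinuousMap.const (Geo (Set.univ : Set (Finset Unit))) (e.invFun pt)).comp
        (ContinuousMap.const (Geo K) ⟨_, mem_geo_unit⟩) = e.invFun.comp e.toFun := by
      ext1 x
      change e.invFun pt = e.invFun (e.toFun x)
      rw [subsingleton_wedge d pt (e.toFun x)]
    rw [this]
    exact e.left_inv
  · apply not_acyc_cross (R := R₁) (d i)
    apply retract_acyc (R := R₁) hK h0 (down_cross (d i))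
      (e.invFun.comp ((wedgeIn d i).comp (crU (d i))))
      ((crV (d i)).comp ((wedgeOut d i).comp e.toFun)) _ h1
    have e1 : ((crV (d i)).comp ((wedgeOut d i).comp e.toFun)).comp
        (e.invFun.comp ((wedgeIn d i).comp (crU (d i)))) =
        (((crV (d i)).comp (wedgeOut d i)).comp (e.toFun.comp e.invFun)).comp
          ((wedgeIn d i).comp (crU (d i))) := rfl
    have e2 : (((crV (d i)).comp (wedgeOut d i)).comp (ContinuousMap.id _)).comp
          ((wedgeIn d i).comp (crU (d i))) = ContinuousMap.id _ := by
      ext1 x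
      change crV (d i) (wedgeOut d i (wedgeIn d i (crU (d i) x))) = x
      rw [wedgeOut_in, crV_crU]
    rw [e1, ← e2]
    exact ((ContinuousMap.Homotopic.refl _).comp e.right_inv).comp (ContinuousMap.Homotopic.refl _)

end Pool.Agent.OC
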