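import Pool.Agent.Lib_helper43.OC.Circle
import Pool.Agent.Lib_helper43.OC.Sorted
import Pool.Agent.Lib_helper43.OC.Wedge

set_option autoImplicit false

open Finset

/-! From numerical certificates to circle graphs. -/

namespace Pool.Agent.OC

theorem down_indC {V : Type*} (G : SimpleGraph V) : Down (IndC G) :=
  fun _ hA _ hB x hx y hy => hA x (hB hx) y (hB hy)

theorem empty_mem_indC {V : Type*} (G : SimpleGraph V) : ∅ ∈ IndC G := by
  intro x hx
  simp at hx

/-- the graph on `Fin n` with given adjacency masks. -/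
def gr (n : ℕ) (adj : ℕ → ℕ) (h : Sy adj) : SimpleGraph (Fin n) where
  Adj u v := (adj u).testBit v = true
  symm := ⟨fun u v huv => by
    rw [h.1]; exact huv⟩
  loopless := ⟨fun u hu => by
    rw [h.2] at hu
    exact absurd hu (by simp)⟩

section
variable {R : Type*} [CommRing R]

theorem acyc_gr {n : ℕ} (hn : 0 < n) {adj : ℕ → ℕ} (h : Sy adj) :
    Acyc R (IndC (gr n adj h)) ↔ Acyc R (Ind adj (2 ^ n - 1)) := by
  set g : ℕ → Fin n := fun x => if hx : x < n then ⟨x, hx⟩ else ⟨0, hn⟩ with hg
  have hgx : ∀ x (hx : x < n), g x = ⟨x, hx⟩ := fun x hx => dif_pos hx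
  have hS : ∀ x, (2 ^ n - 1).testBit x = true ↔ x < n := by
    intro x
    rw [Nat.testBit_two_pow_sub_one]
    simp
  have hf : ∀ l : List (Fin n), l.toFinset ∈ IndC (gr n adj h) →
      (l.map Fin.val).toFinset ∈ Ind adj (2 ^ n - 1) := by
    intro l hl
    constructor
    · intro x hx
      rw [List.mem_toFinset, List.mem_map] at hx
      obtain ⟨y, _, rfl⟩ := hx
      rw [hS]
      exact y.2
    · intro x hx y hy
      rw [List.mem_toFinset, List.mem_map] at hx hy
      obtain ⟨x', hx', rfl⟩ := hx
      obtain ⟨y', hy', rfl⟩ := hy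
      have := hl x' (List.mem_toFinset.2 hx') y' (List.mem_toFinset.2 hy')
      change ¬ ((adj x').testBit y' = true) at this
      simpa using this
  have hgl : ∀ l : List ℕ, l.toFinset ∈ Ind adj (2 ^ n - 1) →
      (l.map g).toFinset ∈ IndC (gr n adj h) ∧ l.map (fun x => ((g x : Fin n) : ℕ)) = l := by
    intro l hl
    have hlt : ∀ x ∈ l, x < n := fun x hx => (hS x).1 (hl.1 x (List.mem_toFinset.2 hx))
    constructor
    · intro x hx y hy
      rw [List.mem_toFinset, List.mem_map] at hx hy
      obtain ⟨x', hx', rfl⟩ := hx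
      obtain ⟨y', hy', rfl⟩ := hy
      rw [hgx x' (hlt x' hx'), hgx y' (hlt y' hy')]
      have := hl.2 x' (List.mem_toFinset.2 hx') y' (List.mem_toFinset.2 hy')
      change ¬ ((adj x').testBit y' = true)
      simp [this]
    · conv_rhs => rw [← List.map_id l]
      apply List.map_congr_left
      intro x hx
      rw [hgx x (hlt x hx)]
      rfl
  constructor
  · intro hac z hz hbz
    obtain ⟨w, hw, hbw⟩ := hac (mp R g z) (hz.mp g (fun l hl => (hgl l hl).1))
      (by rw [bd_mp, hbz, map_zero])
    refine ⟨mp R Fin.val w, hw.mp _ hf, ?_⟩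
    rw [bd_mp, hbw, mp_mp]
    have := hz.congr (mp R ((fun x : Fin n => (x : ℕ)) ∘ g)) LinearMap.id (by
      intro l hl
      rw [mp_bs, LinearMap.id_apply]
      congr 1
      exact (hgl l hl).2)
    rw [LinearMap.id_apply] at this
    exact this
  · intro hac z hz hbz
    obtain ⟨w, hw, hbw⟩ := hac (mp R Fin.val z) (hz.mp _ hf) (by rw [bd_mp, hbz, map_zero])
    refine ⟨mp R g w, hw.mp g (fun l hl => (hgl l hl).1), ?_⟩
    rw [bd_mp, hbw, mp_mp]
    apply mp_id'
    intro x
    exact hgx x x.2

end

/-- alternation of integer endpoints. -/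
def crB (a b c d : ℕ) : Bool :=
  decide (((a : ℤ) - c) * ((a : ℤ) - d) * (((b : ℤ) - c) * ((b : ℤ) - d)) < 0)

/-- check that the masks are those of the chord diagram with endpoint positions coded by `P`. -/
def chkW (n W M PW P : ℕ) : Bool :=
  allB (2 * n) (fun i => allB i (fun j => !(row PW P i).beq (row PW P j))) &&
  allB n (fun u => allB n (fun v => u.beq v ||
    ((row W M u).testBit v ==
      crB (row PW P (2 * u)) (row PW P (2 * u + 1)) (row PW P (2 * v)) (row PW P (2 * v + 1)))))

theorem chkW_sound {n W M PW P : ℕ} (hM : Sy (row W M)) (h : chkW n W M PW P = true) :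
    IsCircleGraph (gr n (row W M) hM) := by
  rw [chkW, Bool.and_eq_true, allB_iff, allB_iff] at h
  obtain ⟨h1, h2⟩ := h
  set e : ℕ → ℕ := row PW P with he
  have hd0 : ∀ i < 2 * n, ∀ j < i, e i ≠ e j := by
    intro i hi j hj
    have := h1 i hi
    rw [allB_iff] at this
    have := this j hj
    rw [Bool.not_eq_true'] at this
    intro h'
    rw [h', Nat.beq_refl] at this
    exact absurd this (by simp)
  have hd : ∀ i < 2 * n, ∀ j < 2 * n, i ≠ j → (e i : ℝ) ≠ (e j : ℝ) := by
    intro i hi j hj hij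
    rw [Ne, Nat.cast_inj]
    rcases Nat.lt_or_gt_of_ne hij with h | h
    · exact (hd0 j hj i h).symm
    · exact hd0 i hi j h
  refine ⟨fun v => cp (e (2 * v)), fun v => cp (e (2 * v + 1)), fun v => norm_cp _,
    fun v => norm_cp _, ?_, ?_⟩
  · rintro (u | u) (v | v) huv
    · by_contra hne
      have hne' : (u : ℕ) ≠ v := fun h => hne (by rw [Fin.ext h])
      exact hd (2 * u) (by omega) (2 * v) (by omega) (by omega) (cp_inj huv)
    · exact absurd (cp_inj huv) (hd (2 * u) (by omega) (2 * v + 1) (by omega) (by omega))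
    · exact absurd (cp_inj huv) (hd (2 * u + 1) (by omega) (2 * v) (by omega) (by omega))
    · by_contra hne
      have hne' : (u : ℕ) ≠ v := fun h => hne (by rw [Fin.ext h])
      exact hd (2 * u + 1) (by omega) (2 * v + 1) (by omega) (by omega) (cp_inj huv)
  · intro u v
    by_cases huv : u = v
    · subst huv
      simp
    · have huv' : (u : ℕ) ≠ v := fun h => huv (Fin.ext h)
      have h3 := h2 u u.2
      rw [allB_iff] at h3
      have h4 := h3 v v.2
      rw [Bool.or_eq_true] at h4
      rcases h4 with h4 | h4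
      · exact absurd (Nat.eq_of_beq_eq_true h4) huv'
      · rw [beq_iff_eq] at h4
        rw [meet_iff (hd (2 * u) (by omega) (2 * v) (by omega) (by omega))
          (hd (2 * u) (by omega) (2 * v + 1) (by omega) (by omega))
          (hd (2 * u + 1) (by omega) (2 * v) (by omega) (by omega))
          (hd (2 * u + 1) (by omega) (2 * v + 1) (by omega) (by omega))]
        change (row W M u).testBit v = true ↔ _
        rw [h4, crB, decide_eq_true_eq]
        constructor
        · intro h5
          refine ⟨huv, ?_⟩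
          have h6 : (((((e (2 * u) : ℕ) : ℤ) - (e (2 * v) : ℕ)) * (((e (2 * u) : ℕ) : ℤ) -
            (e (2 * v + 1) : ℕ)) * ((((e (2 * u + 1) : ℕ) : ℤ) - (e (2 * v) : ℕ)) *
            (((e (2 * u + 1) : ℕ) : ℤ) - (e (2 * v + 1) : ℕ))) : ℤ) : ℝ) < ((0 : ℤ) : ℝ) :=
            Int.cast_lt.2 h5
          push_cast at h6
          exact h6
        · rintro ⟨_, h5⟩
          have h6 : (((((e (2 * u) : ℕ) : ℤ) - (e (2 * v) : ℕ)) * (((e (2 * u) : ℕ) : ℤ) -
            (e (2 * v + 1) : ℕ)) * ((((e (2 * u + 1) : ℕ) : ℤ) - (e (2 * v) : ℕ)) *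
            (((e (2 * u + 1) : ℕ) : ℤ) - (e (2 * v + 1) : ℕ))) : ℤ) : ℝ) < ((0 : ℤ) : ℝ) := by
            push_cast
            exact h5
          exact Int.cast_lt.1 h6

/-- checking a bipartition. -/
def chkB (n W M C : ℕ) : Bool :=
  allB n (fun u => allB n (fun v => !(row W M u).testBit v || (C.testBit u != C.testBit v)))

theorem chkB_sound {n W M C : ℕ} (hM : Sy (row W M)) (h : chkB n W M C = true) :
    (gr n (row W M) hM).Colorable 2 := by
  rw [chkB, allB_iff] at h
  refine ⟨SimpleGraph.Coloring.mk (fun v => if C.testBit v = true then 1 else 0) ?_⟩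
  intro u v huv
  have h1 := h u u.2
  rw [allB_iff] at h1
  have h2 := h1 v v.2
  change (row W M u).testBit v = true at huv
  rw [huv] at h2
  cases hu : C.testBit u <;> cases hv : C.testBit v <;> simp [hu, hv] at h2 ⊢

end Pool.Agent.OC
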