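import Pool.Agent.Lib_helper43.OC.MV

set_option autoImplicit false
set_option linter.unusedSectionVars false

open Finset

/-! Certificates for independence complexes of graphs on natural numbers, coded by bit masks. -/

namespace Pool.Agent.OC

/-- removal of the bits of `m` from `S`. -/
def rm (S m : ℕ) : ℕ := S ^^^ (S &&& m)

theorem testBit_rm (S m i : ℕ) : (rm S m).testBit i = (S.testBit i && !(m.testBit i)) := by
  unfold rm
  rw [Nat.testBit_xor, Nat.testBit_and]
  cases S.testBit i <;> cases m.testBit i <;> rfl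

/-- independent sets contained in `S`. -/
def Ind (adj : ℕ → ℕ) (S : ℕ) : Set (Finset ℕ) :=
  {A | (∀ x ∈ A, S.testBit x = true) ∧ ∀ x ∈ A, ∀ y ∈ A, (adj x).testBit y = false}

theorem down_ind (adj : ℕ → ℕ) (S : ℕ) : Down (Ind adj S) := by
  intro A hA B hB
  exact ⟨fun x hx => hA.1 x (hB hx), fun x hx y hy => hA.2 x (hB hx) y (hB hy)⟩

theorem empty_mem_ind (adj : ℕ → ℕ) (S : ℕ) : ∅ ∈ Ind adj S := by
  constructor <;> simp

/-- symmetric irreflexive adjacency. -/
def Sy (adj : ℕ → ℕ) : Prop :=
  (∀ x y, (adj x).testBit y = (adj y).testBit x) ∧ ∀ x, (adj x).testBit x = false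

theorem del_ind (adj : ℕ → ℕ) (S v : ℕ) : Del (Ind adj S) v = Ind adj (rm S (2 ^ v)) := by
  ext A
  constructor
  · rintro ⟨⟨h1, h2⟩, h3⟩
    refine ⟨?_, h2⟩
    intro x hx
    rw [testBit_rm, Nat.testBit_two_pow, h1 x hx]
    have : v ≠ x := fun h => h3 (h ▸ hx)
    simp [this]
  · rintro ⟨h1, h2⟩
    refine ⟨⟨?_, h2⟩, ?_⟩
    · intro x hx
      have := h1 x hx
      rw [testBit_rm] at this
      exact (Bool.and_eq_true _ _ ▸ this).1
    · intro hv
      have := h1 v hv
      rw [testBit_rm, Nat.testBit_two_pow] at this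
      simp at this

theorem lk_ind {adj : ℕ → ℕ} (hadj : Sy adj) {S v : ℕ} (hv : S.testBit v = true) :
    Lk (Ind adj S) v = Ind adj (rm (rm S (2 ^ v)) (adj v)) := by
  ext A
  constructor
  · rintro ⟨h1, h2, h3⟩
    refine ⟨?_, fun x hx y hy => h3 x (mem_insert_of_mem hx) y (mem_insert_of_mem hy)⟩
    intro x hx
    rw [testBit_rm, testBit_rm, Nat.testBit_two_pow, h2 x (mem_insert_of_mem hx),
      h3 v (mem_insert_self _ _) x (mem_insert_of_mem hx)]
    have : v ≠ x := fun h => h1 (h ▸ hx)
    simp [this]
  · rintro ⟨h1, h2⟩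
    have h1' : ∀ x ∈ A, S.testBit x = true ∧ v ≠ x ∧ (adj v).testBit x = false := by
      intro x hx
      have := h1 x hx
      rw [testBit_rm, testBit_rm, Nat.testBit_two_pow] at this
      simp only [Bool.and_eq_true, Bool.not_eq_true', decide_eq_false_iff_not] at this
      exact ⟨this.1.1, this.1.2, this.2⟩
    refine ⟨fun h => (h1' v h).2.1 rfl, ?_, ?_⟩
    · intro x hx
      rcases mem_insert.1 hx with rfl | hx
      · exact hv
      · exact (h1' x hx).1
    · intro x hx y hy
      rcases mem_insert.1 hx with hx' | hx'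
      · rcases mem_insert.1 hy with hy' | hy'
        · rw [hx', hy']; exact hadj.2 _
        · rw [hx']; exact (h1' y hy').2.2
      · rcases mem_insert.1 hy with hy' | hy'
        · rw [hadj.1, hy']; exact (h1' x hx').2.2
        · exact h2 x hx' y hy'

/-- proof trees for acyclicity. -/
inductive Tr
  | i (u : ℕ) : Tr
  | n (v : ℕ) (l d : Tr) : Tr

/-- checking of proof trees. -/
def Tr.chk (adj : ℕ → ℕ) : Tr → ℕ → Bool
  | .i u, S => S.testBit u && (adj u &&& S).beq 0
  | .n v l d, S => l.chk adj (rm (rm S (2 ^ v)) (adj v)) && d.chk adj (rm S (2 ^ v))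

section
variable {R : Type*} [CommRing R]

theorem Tr.sound {adj : ℕ → ℕ} (hadj : Sy adj) (t : Tr) (S : ℕ) (h : t.chk adj S = true) :
    Acyc R (Ind adj S) := by
  induction t generalizing S with
  | i u =>
    rw [Tr.chk, Bool.and_eq_true] at h
    obtain ⟨h1, h2⟩ := h
    have h3 : adj u &&& S = 0 := Nat.eq_of_beq_eq_true h2
    have h4 : ∀ x, S.testBit x = true → (adj u).testBit x = false := by
      intro x hx
      have := congrArg (fun k => Nat.testBit k x) h3
      simpa [Nat.testBit_and, hx] using this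
    apply acyc_cone u
    rintro A ⟨g1, g2⟩
    refine ⟨?_, ?_⟩
    · intro x hx
      rcases mem_insert.1 hx with rfl | hx
      · exact h1
      · exact g1 x hx
    · intro x hx y hy
      rcases mem_insert.1 hx with hx' | hx'
      · rcases mem_insert.1 hy with hy' | hy'
        · rw [hx', hy']; exact hadj.2 _
        · rw [hx']; exact h4 y (g1 y hy')
      · rcases mem_insert.1 hy with hy' | hy'
        · rw [hadj.1, hy']; exact h4 x (g1 x hx')
        · exact g2 x hx' y hy'
  | n v l d ihl ihd =>
    rw [Tr.chk, Bool.and_eq_true] at h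
    obtain ⟨h1, h2⟩ := h
    have g1 := ihl _ h1
    have g2 := ihd _ h2
    by_cases hv : S.testBit v = true
    · rw [← lk_ind hadj hv] at g1
      rw [← del_ind] at g2
      exact (ld1 (down_ind adj S) v g1).2 g2
    · have : rm S (2 ^ v) = S := by
        apply Nat.eq_of_testBit_eq
        intro i
        rw [testBit_rm, Nat.testBit_two_pow]
        by_cases hi : v = i
        · subst hi
          simp at hv
          simp [hv]
        · simp [hi]
      rw [this] at g2
      exact g2

/-- moves. -/
inductive Mv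
  | a (v : ℕ) (t : Tr) : Mv
  | d (v : ℕ) (t : Tr) : Mv
  | l (v : ℕ) (t : Tr) : Mv

/-- running a list of moves. -/
def run (adj : ℕ → ℕ) : List Mv → ℕ → ℕ → Bool
  | [], S, S' => S.beq S'
  | .a v t :: ms, S, S' => !(S.testBit v) && (t.chk adj (rm S (adj v)) && run adj ms (S ||| 2 ^ v) S')
  | .d v t :: ms, S, S' => S.testBit v &&
      (t.chk adj (rm (rm S (2 ^ v)) (adj v)) && run adj ms (rm S (2 ^ v)) S')
  | .l v t :: ms, S, S' => S.testBit v &&
      (t.chk adj (rm S (2 ^ v)) && run adj ms (rm (rm S (2 ^ v)) (adj v)) S')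

theorem run_sound {adj : ℕ → ℕ} (hadj : Sy adj) (ms : List Mv) (S S' : ℕ)
    (h : run adj ms S S' = true) : Acyc R (Ind adj S) ↔ Acyc R (Ind adj S') := by
  induction ms generalizing S with
  | nil =>
    rw [run] at h
    rw [Nat.eq_of_beq_eq_true h]
  | cons m ms ih =>
    rcases m with ⟨v, t⟩ | ⟨v, t⟩ | ⟨v, t⟩
    · rw [run, Bool.and_eq_true, Bool.and_eq_true, Bool.not_eq_true'] at h
      obtain ⟨h1, h2, h3⟩ := h
      rw [← ih _ h3]
      have hv : (S ||| 2 ^ v).testBit v = true := by
        rw [Nat.testBit_or, Nat.testBit_two_pow]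
        simp
      have e : rm (S ||| 2 ^ v) (2 ^ v) = S := by
        apply Nat.eq_of_testBit_eq
        intro i
        rw [testBit_rm, Nat.testBit_or, Nat.testBit_two_pow]
        by_cases hi : v = i
        · subst hi
          simp [h1]
        · simp [hi]
      have g := t.sound (R := R) hadj _ h2
      have g1 : Acyc R (Lk (Ind adj (S ||| 2 ^ v)) v) := by
        rw [lk_ind hadj hv, e]
        exact g
      rw [ld1 (down_ind adj _) v g1, del_ind, e]
    · rw [run, Bool.and_eq_true, Bool.and_eq_true] at h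
      obtain ⟨h1, h2, h3⟩ := h
      rw [← ih _ h3]
      have g := t.sound (R := R) hadj _ h2
      rw [← lk_ind hadj h1] at g
      rw [ld1 (down_ind adj _) v g, del_ind]
    · rw [run, Bool.and_eq_true, Bool.and_eq_true] at h
      obtain ⟨h1, h2, h3⟩ := h
      rw [← ih _ h3]
      have g := t.sound (R := R) hadj _ h2
      rw [← del_ind] at g
      rw [ld2 (down_ind adj _) v g, lk_ind hadj h1]

end

/-! ### adjacency from a single number -/

/-- the `v`-th block of `W` bits of `M`. -/
def row (W M v : ℕ) : ℕ := (M >>> (v * W)) % 2 ^ W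

/-- bounded conjunction. -/
def allB : ℕ → (ℕ → Bool) → Bool
  | 0, _ => true
  | k + 1, p => p k && allB k p

theorem allB_iff (k : ℕ) (p : ℕ → Bool) : allB k p = true ↔ ∀ x < k, p x = true := by
  induction k with
  | zero => simp [allB]
  | succ k ih =>
    rw [allB, Bool.and_eq_true, ih]
    constructor
    · rintro ⟨h1, h2⟩ x hx
      rcases Nat.lt_succ_iff_lt_or_eq.1 hx with h | h
      · exact h2 x h
      · rw [h]; exact h1
    · intro h
      exact ⟨h k (Nat.lt_succ_self k), fun x hx => h x (Nat.lt_succ_of_lt hx)⟩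

/-- checking symmetry. -/
def chkSy (W M : ℕ) : Bool :=
  Nat.ble (M + 1) (2 ^ (W * W)) &&
  allB W (fun x => !((row W M x).testBit x) &&
    allB x (fun y => (row W M x).testBit y == (row W M y).testBit x))

theorem row_big {W M v y : ℕ} (h : W ≤ y) : (row W M v).testBit y = false := by
  unfold row
  apply Nat.testBit_lt_two_pow
  apply lt_of_lt_of_le (Nat.mod_lt _ (by positivity))
  exact Nat.pow_le_pow_right (by norm_num) h

theorem chkSy_sound {W M : ℕ} (h : chkSy W M = true) : Sy (row W M) := by
  rw [chkSy, Bool.and_eq_true] at h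
  obtain ⟨h1, h2⟩ := h
  have h1' : M < 2 ^ (W * W) := Nat.le_of_ble_eq_true h1
  rw [allB_iff] at h2
  have hrow : ∀ v, W ≤ v → row W M v = 0 := by
    intro v hv
    unfold row
    have : M >>> (v * W) = 0 := by
      rw [Nat.shiftRight_eq_div_pow]
      apply Nat.div_eq_of_lt
      apply lt_of_lt_of_le h1'
      apply Nat.pow_le_pow_right (by norm_num)
      exact Nat.mul_le_mul_right W hv
    rw [this, Nat.zero_mod]
  have key : ∀ x y, y < x → (row W M x).testBit y = (row W M y).testBit x := by
    intro x y hxy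
    rcases Nat.lt_or_ge x W with hx | hx
    · have := h2 x hx
      rw [Bool.and_eq_true, allB_iff] at this
      simpa using this.2 y hxy
    · rw [hrow x hx, row_big hx, Nat.zero_testBit]
  constructor
  · intro x y
    rcases lt_trichotomy x y with h | h | h
    · exact (key y x h).symm
    · rw [h]
    · exact key x y h
  · intro x
    rcases Nat.lt_or_ge x W with hx | hx
    · have := h2 x hx
      rw [Bool.and_eq_true] at this
      simpa using this.1
    · rw [hrow x hx, Nat.zero_testBit]

end Pool.Agent.OC
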