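import Mathlib

set_option autoImplicit false

open Finset

/-!
Ordered simplicial chains (finite sequences of vertices), with coefficients in a commutative ring,
augmented: the empty sequence has degree `-1`.
-/

namespace Pool.Agent.OC

/-- ordered chains: finite formal combinations of finite sequences in `X`. -/
abbrev OCh (R : Type*) [CommRing R] (X : Type*) := List X →₀ R

section
variable {R : Type*} [CommRing R]
variable {X Y Z : Type*}

variable (R) in
/-- the unit basis chain. -/
noncomputable def bs (l : List X) : OCh R X := Finsupp.single l 1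

theorem lin_ext {M : Type*} [AddCommMonoid M] [Module R M] {f g : OCh R X →ₗ[R] M}
    (h : ∀ l : List X, f (bs R l) = g (bs R l)) : f = g := by
  apply Finsupp.lhom_ext'
  intro A
  apply LinearMap.ext_ring
  simpa [bs] using h A

variable (R) in
/-- linear extension of a function on sequences. -/
noncomputable def ext {M : Type*} [AddCommGroup M] [Module R M] (F : List X → M) :
    OCh R X →ₗ[R] M := Finsupp.linearCombination R F

@[simp] theorem ext_bs {M : Type*} [AddCommGroup M] [Module R M] (F : List X → M) (l : List X) :
    ext R F (bs R l) = F l := by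
  simp [ext, bs]

variable (R) in
/-- cone with apex `x`. -/
noncomputable def cone (x : X) : OCh R X →ₗ[R] OCh R X := ext R (fun l => bs R (x :: l))

@[simp] theorem cone_bs (x : X) (l : List X) : cone R x (bs R l) = bs R (x :: l) := by
  simp [cone]

variable (R) in
/-- boundary of a sequence. -/
noncomputable def bdF : List X → OCh R X
  | [] => 0
  | x :: l => bs R l - cone R x (bdF l)

variable (R X) in
/-- the boundary operator. -/
noncomputable def bd : OCh R X →ₗ[R] OCh R X := ext R (bdF R)

@[simp] theorem bd_nil : bd R X (bs R []) = 0 := by simp [bd, bdF]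

theorem bd_cons (x : X) (l : List X) :
    bd R X (bs R (x :: l)) = bs R l - cone R x (bd R X (bs R l)) := by
  simp [bd, bdF]

theorem bd_cone (x : X) (c : OCh R X) : bd R X (cone R x c) = c - cone R x (bd R X c) := by
  have : (bd R X) ∘ₗ (cone R x) = LinearMap.id - (cone R x) ∘ₗ (bd R X) := by
    apply lin_ext
    intro l
    simp [bd_cons]
  exact LinearMap.congr_fun this c

theorem bd_bd (c : OCh R X) : bd R X (bd R X c) = 0 := by
  have : (bd R X) ∘ₗ (bd R X) = 0 := by
    apply lin_ext
    intro l
    simp only [LinearMap.comp_apply, LinearMap.zero_apply]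
    induction l with
    | nil => simp
    | cons x l ih => rw [bd_cons, map_sub, bd_cone, ih]; simp
  exact LinearMap.congr_fun this c

variable (R) in
/-- push-forward. -/
noncomputable def mp (f : X → Y) : OCh R X →ₗ[R] OCh R Y := ext R (fun l => bs R (l.map f))

@[simp] theorem mp_bs (f : X → Y) (l : List X) : mp R f (bs R l) = bs R (l.map f) := by
  simp [mp]

theorem mp_cone (f : X → Y) (x : X) (c : OCh R X) :
    mp R f (cone R x c) = cone R (f x) (mp R f c) := by
  have : (mp R f) ∘ₗ (cone R x) = (cone R (f x)) ∘ₗ (mp R f) := by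
    apply lin_ext
    intro l
    simp
  exact LinearMap.congr_fun this c

theorem bd_mp (f : X → Y) (c : OCh R X) : bd R Y (mp R f c) = mp R f (bd R X c) := by
  have : (bd R Y) ∘ₗ (mp R f) = (mp R f) ∘ₗ (bd R X) := by
    apply lin_ext
    intro l
    simp only [LinearMap.comp_apply]
    induction l with
    | nil => simp
    | cons x l ih =>
      rw [bd_cons, map_sub, mp_bs, mp_bs, List.map_cons, bd_cons, mp_cone, ← ih, mp_bs]
  exact LinearMap.congr_fun this c

theorem mp_mp (f : X → Y) (g : Y → Z) (c : OCh R X) :
    mp R g (mp R f c) = mp R (g ∘ f) c := by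
  have : (mp R g) ∘ₗ (mp R f) = mp R (g ∘ f) := by
    apply lin_ext
    intro l
    simp
  exact LinearMap.congr_fun this c

/-- `bd` written with erased entries. -/
theorem bd_bs_eq_sum (l : List X) :
    bd R X (bs R l) = ∑ i : Fin l.length, ((-1 : R) ^ (i : ℕ)) • bs R (l.eraseIdx i) := by
  induction l with
  | nil => simp
  | cons x l ih =>
    rw [bd_cons, ih]
    simp only [List.length_cons]
    rw [Fin.sum_univ_succ]
    simp only [Fin.val_zero, pow_zero, one_smul, List.eraseIdx_zero, List.tail_cons,
      Fin.val_succ, List.eraseIdx_cons_succ, map_sum, map_smul, cone_bs]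
    rw [sub_eq_add_neg, ← Finset.sum_neg_distrib]
    congr 1
    apply Finset.sum_congr rfl
    intro i _
    rw [pow_succ, mul_neg_one, neg_smul]

/-! ### supports -/

/-- the chain `c` only involves sequences with property `P`. -/
def Supp (P : List X → Prop) (c : OCh R X) : Prop := ∀ l, ¬ P l → c l = 0

theorem Supp.add {P : List X → Prop} {c d : OCh R X} (hc : Supp P c) (hd : Supp P d) :
    Supp P (c + d) := by
  intro A hA
  simp [hc A hA, hd A hA]

theorem Supp.sub {P : List X → Prop} {c d : OCh R X} (hc : Supp P c) (hd : Supp P d) :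
    Supp P (c - d) := by
  intro A hA
  simp [hc A hA, hd A hA]

theorem Supp.zero {P : List X → Prop} : Supp P (0 : OCh R X) := fun _ _ => rfl

theorem Supp.smul {P : List X → Prop} {c : OCh R X} (a : R) (hc : Supp P c) :
    Supp P (a • c) := by
  intro A hA
  simp [hc A hA]

theorem Supp.sum {P : List X → Prop} {ι : Type*} {s : Finset ι} {c : ι → OCh R X}
    (hc : ∀ i ∈ s, Supp P (c i)) : Supp P (∑ i ∈ s, c i) := by
  intro A hA
  rw [Finsupp.finsetSum_apply]
  exact Finset.sum_eq_zero (fun i hi => hc i hi A hA)

theorem Supp.bs {P : List X → Prop} {l : List X} (hA : P l) : Supp P (bs R l) := by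
  classical
  intro B hB
  have : l ≠ B := fun h => hB (h ▸ hA)
  simp [OC.bs, this]

theorem Supp.mono {P Q : List X → Prop} {c : OCh R X} (hc : Supp P c) (h : ∀ A, P A → Q A) :
    Supp Q c := fun A hA => hc A (fun hP => hA (h A hP))

theorem decomp (c : OCh R X) : c = ∑ A ∈ c.support, c A • bs R A := by
  conv_lhs => rw [← Finsupp.sum_single c]
  simp [Finsupp.sum, OC.bs]

/-- a linear operator applied to a supported chain. -/
theorem Supp.lin {P : List X → Prop} {Q : List Y → Prop} {c : OCh R X}
    (hc : Supp P c) (T : OCh R X →ₗ[R] OCh R Y)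
    (hT : ∀ A, P A → Supp Q (T (OC.bs R A))) : Supp Q (T c) := by
  rw [decomp c, map_sum]
  apply Supp.sum
  intro A hA
  rw [map_smul]
  apply Supp.smul
  apply hT
  by_contra hP
  exact (Finsupp.mem_support_iff.1 hA) (hc A hP)

/-- two linear operators agreeing on the support. -/
theorem Supp.congr {P : List X → Prop} {M : Type*} [AddCommGroup M] [Module R M] {c : OCh R X}
    (hc : Supp P c) (T S : OCh R X →ₗ[R] M)
    (hT : ∀ A, P A → T (OC.bs R A) = S (OC.bs R A)) : T c = S c := by
  rw [decomp c, map_sum, map_sum]
  apply Finset.sum_congr rfl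
  intro A hA
  rw [map_smul, map_smul, hT]
  by_contra hP
  exact (Finsupp.mem_support_iff.1 hA) (hc A hP)

/-- support of a boundary. -/
theorem Supp.bd {P Q : List X → Prop} {c : OCh R X} (hc : Supp P c)
    (hPQ : ∀ l, P l → ∀ i, i < l.length → Q (l.eraseIdx i)) : Supp Q (bd R X c) := by
  apply hc.lin
  intro l hl
  rw [bd_bs_eq_sum]
  apply Supp.sum
  intro i _
  exact Supp.smul _ (Supp.bs (hPQ l hl i i.2))

theorem Supp.cone {P Q : List X → Prop} {c : OCh R X} (hc : Supp P c) (x : X)
    (hPQ : ∀ l, P l → Q (x :: l)) : Supp Q (cone R x c) := by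
  apply hc.lin
  intro l hl
  rw [cone_bs]
  exact Supp.bs (hPQ l hl)

theorem Supp.mp {P : List X → Prop} {Q : List Y → Prop} {c : OCh R X} (hc : Supp P c) (f : X → Y)
    (hPQ : ∀ l, P l → Q (l.map f)) : Supp Q (mp R f c) := by
  apply hc.lin
  intro l hl
  rw [mp_bs]
  exact Supp.bs (hPQ l hl)

/-! ### prism -/

variable (R) in
/-- the prism between two maps on vertices. -/
noncomputable def prF (f g : X → Y) : List X → OCh R Y
  | [] => 0
  | x :: l => cone R (f x) (cone R (g x) (bs R (l.map g))) - cone R (f x) (prF f g l)

variable (R) in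
/-- the prism operator. -/
noncomputable def pr (f g : X → Y) : OCh R X →ₗ[R] OCh R Y := ext R (prF R f g)

@[simp] theorem pr_nil (f g : X → Y) : pr R f g (bs R []) = 0 := by simp [pr, prF]

theorem pr_cons (f g : X → Y) (x : X) (l : List X) :
    pr R f g (bs R (x :: l)) =
      cone R (f x) (cone R (g x) (mp R g (bs R l))) - cone R (f x) (pr R f g (bs R l)) := by
  simp [pr, prF]

theorem pr_cone (f g : X → Y) (x : X) (c : OCh R X) :
    pr R f g (cone R x c) =
      cone R (f x) (cone R (g x) (mp R g c)) - cone R (f x) (pr R f g c) := by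
  have : (pr R f g) ∘ₗ (cone R x) =
      (cone R (f x)) ∘ₗ (cone R (g x)) ∘ₗ (mp R g) - (cone R (f x)) ∘ₗ (pr R f g) := by
    apply lin_ext
    intro l
    simp only [LinearMap.comp_apply, LinearMap.sub_apply, cone_bs]
    rw [pr_cons]
  exact LinearMap.congr_fun this c

theorem bd_pr (f g : X → Y) (c : OCh R X) :
    bd R Y (pr R f g c) = mp R g c - mp R f c - pr R f g (bd R X c) := by
  have : (bd R Y) ∘ₗ (pr R f g) = mp R g - mp R f - (pr R f g) ∘ₗ (bd R X) := by
    apply lin_ext
    intro l
    simp only [LinearMap.comp_apply, LinearMap.sub_apply]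
    induction l with
    | nil => simp
    | cons x l ih =>
      rw [pr_cons, map_sub, bd_cone, bd_cone, bd_cone, ih, bd_mp, bd_cons,
        map_sub (pr R f g), pr_cone]
      simp only [mp_bs, List.map_cons, map_sub, cone_bs]
      abel
  exact LinearMap.congr_fun this c

theorem supp_pr (f g : X → Y) (l : List X) :
    Supp (fun m => ∀ y ∈ m, ∃ x ∈ l, y = f x ∨ y = g x) (pr R f g (bs R l)) := by
  induction l with
  | nil => rw [pr_nil]; exact Supp.zero
  | cons x l ih =>
    rw [pr_cons]
    apply Supp.sub
    · simp only [mp_bs, cone_bs]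
      apply Supp.bs (P := fun m => ∀ y ∈ m, ∃ x' ∈ x :: l, y = f x' ∨ y = g x')
      intro y hy
      simp only [List.mem_cons, List.mem_map] at hy
      rcases hy with rfl | rfl | ⟨z, hz, rfl⟩
      · exact ⟨x, by simp, Or.inl rfl⟩
      · exact ⟨x, by simp, Or.inr rfl⟩
      · exact ⟨z, by simp [hz], Or.inr rfl⟩
    · apply ih.cone
      intro m hm y hy
      rcases List.mem_cons.1 hy with rfl | hy
      · exact ⟨x, by simp, Or.inl rfl⟩
      · obtain ⟨z, hz, h⟩ := hm y hy
        exact ⟨z, by simp [hz], h⟩

/-! ### carriers -/

variable (R) in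
/-- the homotopy given by cones over apices. -/
noncomputable def hoF (T : List X → OCh R X) (apex : List X → X) (l : List X) : OCh R X :=
  if l = [] then 0 else
    cone R (apex l) (T l - ∑ i : Fin l.length, ((-1 : R) ^ (i : ℕ)) • hoF T apex (l.eraseIdx i))
termination_by l.length
decreasing_by
  rw [List.length_eraseIdx_of_lt i.2]
  have := i.2
  omega

variable (R) in
/-- the homotopy operator. -/
noncomputable def ho (T : List X → OCh R X) (apex : List X → X) : OCh R X →ₗ[R] OCh R X :=
  ext R (hoF R T apex)

theorem ho_nil (T : List X → OCh R X) (apex : List X → X) : ho R T apex (bs R []) = 0 := by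
  rw [ho, ext_bs, hoF, if_pos rfl]

theorem ho_ne (T : List X → OCh R X) (apex : List X → X) (l : List X) (hl : l ≠ []) :
    ho R T apex (bs R l) = cone R (apex l) (T l - ho R T apex (bd R X (bs R l))) := by
  conv_lhs => rw [ho, ext_bs, hoF, if_neg hl]
  rw [bd_bs_eq_sum, map_sum]
  simp only [map_smul]
  simp only [ho, ext_bs]

/-- the homotopy formula: `T` is a chain map vanishing on the empty sequence. -/
theorem bd_ho (T : OCh R X →ₗ[R] OCh R X) (hT : ∀ c, bd R X (T c) = T (bd R X c))
    (hT0 : T (bs R []) = 0) (apex : List X → X) (c : OCh R X) :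
    bd R X (ho R (fun l => T (bs R l)) apex c) =
      T c - ho R (fun l => T (bs R l)) apex (bd R X c) := by
  set H := ho R (fun l => T (bs R l)) apex with hH
  have : (bd R X) ∘ₗ H = T - H ∘ₗ (bd R X) := by
    apply lin_ext
    intro l
    simp only [LinearMap.comp_apply, LinearMap.sub_apply]
    induction hn : l.length using Nat.strong_induction_on generalizing l with
    | _ n ih =>
      rcases eq_or_ne l [] with rfl | hl
      · rw [bd_nil, hT0, map_zero, hH, ho_nil, map_zero, sub_zero]
      · have h2 : bd R X (H (bd R X (bs R l))) = T (bd R X (bs R l)) := by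
          have hs : Supp (fun m => m.length < n) (bd R X (bs R l)) := by
            apply (Supp.bs (P := fun m => m = l) rfl).bd
            rintro m rfl i hi
            rw [List.length_eraseIdx_of_lt hi]
            omega
          have := hs.congr ((bd R X) ∘ₗ H) (T - H ∘ₗ (bd R X)) (by
            intro m hm
            simp only [LinearMap.comp_apply, LinearMap.sub_apply]
            exact ih _ hm m rfl)
          simp only [LinearMap.comp_apply, LinearMap.sub_apply] at this
          rw [this, bd_bd, map_zero, sub_zero]
        conv_lhs => rw [hH, ho_ne _ _ l hl, ← hH]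
        rw [bd_cone, map_sub, h2, hT, sub_self, map_zero, sub_zero]
  exact LinearMap.congr_fun this c

/-- support of the homotopy. -/
theorem supp_ho (T : List X → OCh R X) (apex : List X → X) (Car : List X → List X → Prop)
    (h1 : ∀ l, l ≠ [] → Supp (Car l) (T l))
    (h2 : ∀ l, ∀ i, i < l.length → ∀ m, Car (l.eraseIdx i) m → Car l m)
    (h3 : ∀ l, l ≠ [] → ∀ m, Car l m → Car l (apex l :: m)) (l : List X) :
    Supp (Car l) (ho R T apex (bs R l)) := by
  induction hn : l.length using Nat.strong_induction_on generalizing l with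
  | _ n ih =>
    rcases eq_or_ne l [] with rfl | hl
    · rw [ho_nil]; exact Supp.zero
    · rw [ho_ne _ _ l hl]
      apply Supp.cone (P := Car l) _ _ (h3 l hl)
      apply (h1 l hl).sub
      rw [bd_bs_eq_sum, map_sum]
      apply Supp.sum
      intro i _
      rw [map_smul]
      apply Supp.smul
      apply (ih _ _ _ rfl).mono
      · intro m hm
        exact h2 l i i.2 m hm
      · rw [List.length_eraseIdx_of_lt i.2]
        have := i.2
        omega

/-! ### subdivision -/

variable (R) in
/-- subdivision of a sequence, with a given choice of centres. -/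
noncomputable def sdF (apex : List X → Y) (l : List X) : OCh R Y :=
  if l = [] then bs R [] else
    cone R (apex l) (∑ i : Fin l.length, ((-1 : R) ^ (i : ℕ)) • sdF apex (l.eraseIdx i))
termination_by l.length
decreasing_by
  rw [List.length_eraseIdx_of_lt i.2]
  have := i.2
  omega

variable (R) in
/-- the subdivision operator. -/
noncomputable def sd (apex : List X → Y) : OCh R X →ₗ[R] OCh R Y := ext R (sdF R apex)

theorem sd_nil (apex : List X → Y) : sd R apex (bs R []) = bs R [] := by
  rw [sd, ext_bs, sdF, if_pos rfl]

theorem sd_ne (apex : List X → Y) (l : List X) (hl : l ≠ []) :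
    sd R apex (bs R l) = cone R (apex l) (sd R apex (bd R X (bs R l))) := by
  conv_lhs => rw [sd, ext_bs, sdF, if_neg hl]
  rw [bd_bs_eq_sum]
  simp only [map_sum, map_smul, sd, ext_bs]

theorem bd_sd (apex : List X → Y) (c : OCh R X) :
    bd R Y (sd R apex c) = sd R apex (bd R X c) := by
  have : (bd R Y) ∘ₗ (sd R apex) = (sd R apex) ∘ₗ (bd R X) := by
    apply lin_ext
    intro l
    simp only [LinearMap.comp_apply]
    induction hn : l.length using Nat.strong_induction_on generalizing l with
    | _ n ih =>
      rcases eq_or_ne l [] with rfl | hl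
      · rw [sd_nil, bd_nil, bd_nil, map_zero]
      · have h2 : bd R Y (sd R apex (bd R X (bs R l))) = 0 := by
          have hs : Supp (fun m => m.length < n) (bd R X (bs R l)) := by
            apply (Supp.bs (P := fun m => m = l) rfl).bd
            rintro m rfl i hi
            rw [List.length_eraseIdx_of_lt hi]
            omega
          have := hs.congr ((bd R Y) ∘ₗ (sd R apex)) ((sd R apex) ∘ₗ (bd R X)) (by
            intro m hm
            simp only [LinearMap.comp_apply]
            exact ih _ hm m rfl)
          simp only [LinearMap.comp_apply] at this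
          rw [this, bd_bd, map_zero]
        rw [sd_ne _ l hl, bd_cone, h2, map_zero, sub_zero]
  exact LinearMap.congr_fun this c

/-- support of the subdivision. -/
theorem supp_sd (apex : List X → Y) (Car : List X → List Y → Prop)
    (h0 : Car [] [])
    (h3 : ∀ l, ∀ i, i < l.length → ∀ m, Car (l.eraseIdx i) m → Car l (apex l :: m)) (l : List X) :
    Supp (Car l) (sd R apex (bs R l)) := by
  induction hn : l.length using Nat.strong_induction_on generalizing l with
  | _ n ih =>
    rcases eq_or_ne l [] with rfl | hl
    · rw [sd_nil]; exact Supp.bs h0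
    · rw [sd_ne _ l hl, bd_bs_eq_sum, map_sum, map_sum]
      apply Supp.sum
      intro i _
      rw [map_smul, map_smul]
      apply Supp.smul
      apply Supp.cone (P := Car (l.eraseIdx i)) _ _ (h3 l i i.2)
      apply ih _ _ _ rfl
      rw [List.length_eraseIdx_of_lt i.2]
      have := i.2
      omega

end

end Pool.Agent.OC
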