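import Pool.Agent.Lib_helper43.OC.Defs

set_option autoImplicit false

/-! Circle graphs: chords of the unit circle. -/

namespace Pool.Agent.OC

/-- rational parametrization of the circle. -/
noncomputable def cp (t : ℝ) : ℂ := ⟨(1 - t ^ 2) / (1 + t ^ 2), 2 * t / (1 + t ^ 2)⟩

theorem norm_cp (t : ℝ) : ‖cp t‖ = 1 := by
  have h : (1 : ℝ) + t ^ 2 ≠ 0 := by positivity
  rw [← sq_eq_sq₀ (norm_nonneg _) zero_le_one, ← Complex.normSq_eq_norm_sq, Complex.normSq_apply]
  simp only [cp]
  field_simp
  ring

theorem cp_inj : Function.Injective cp := by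
  intro s t h
  have hs : (1 : ℝ) + s ^ 2 ≠ 0 := by positivity
  have ht : (1 : ℝ) + t ^ 2 ≠ 0 := by positivity
  have h1 : (1 - s ^ 2) / (1 + s ^ 2) = (1 - t ^ 2) / (1 + t ^ 2) := congrArg Complex.re h
  have h2 : 2 * s / (1 + s ^ 2) = 2 * t / (1 + t ^ 2) := congrArg Complex.im h
  rw [div_eq_div_iff hs ht] at h1 h2
  have h3 : s ^ 2 = t ^ 2 := by nlinarith
  rw [h3] at h2
  have h4 := mul_right_cancel₀ ht h2
  linarith

/-- the function vanishing on the line through `cp a` and `cp b`. -/
noncomputable def lf (a b : ℝ) (z : ℂ) : ℝ := (1 - z.re) - (a + b) * z.im + a * b * (1 + z.re)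

theorem lf_cp (a b t : ℝ) : lf a b (cp t) = 2 * ((t - a) * (t - b)) / (1 + t ^ 2) := by
  have h : (1 : ℝ) + t ^ 2 ≠ 0 := by positivity
  simp only [lf, cp]
  field_simp
  ring

theorem lf_comb (a b : ℝ) (z w : ℂ) (r s : ℝ) (h : r + s = 1) :
    lf a b (r • z + s • w) = r * lf a b z + s * lf a b w := by
  simp only [lf, Complex.add_re, Complex.add_im, Complex.smul_re, Complex.smul_im, smul_eq_mul]
  have : s = 1 - r := by linarith
  subst this
  ring

/-- two chords with distinct endpoints meet exactly when their endpoints alternate. -/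
theorem meet_iff {a b c d : ℝ} (hac : a ≠ c) (had : a ≠ d) (hbc : b ≠ c) (hbd : b ≠ d) :
    (segment ℝ (cp a) (cp b) ∩ segment ℝ (cp c) (cp d)).Nonempty ↔
      (a - c) * (a - d) * ((b - c) * (b - d)) < 0 := by
  have ha : (0 : ℝ) < 1 + a ^ 2 := by positivity
  have hb : (0 : ℝ) < 1 + b ^ 2 := by positivity
  have hc : (0 : ℝ) < 1 + c ^ 2 := by positivity
  have hd : (0 : ℝ) < 1 + d ^ 2 := by positivity
  constructor
  · rintro ⟨z, ⟨r, s, hr, hs, hrs, hz⟩, ⟨r', s', hr', hs', hrs', hz'⟩⟩
    have h1 : lf a b z = 0 := by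
      rw [← hz, lf_comb a b _ _ r s hrs, lf_cp, lf_cp]
      simp
    have h2 : lf a b z = r' * (2 * ((c - a) * (c - b)) / (1 + c ^ 2)) +
        s' * (2 * ((d - a) * (d - b)) / (1 + d ^ 2)) := by
      rw [← hz', lf_comb a b _ _ r' s' hrs', lf_cp, lf_cp]
    rw [h1] at h2
    by_contra hcon
    push Not at hcon
    have e : (a - c) * (a - d) * ((b - c) * (b - d)) =
        ((c - a) * (c - b)) * ((d - a) * (d - b)) := by ring
    rw [e] at hcon
    have n1 : (c - a) * (c - b) ≠ 0 :=
      mul_ne_zero (sub_ne_zero.2 hac.symm) (sub_ne_zero.2 hbc.symm)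
    have n2 : (d - a) * (d - b) ≠ 0 :=
      mul_ne_zero (sub_ne_zero.2 had.symm) (sub_ne_zero.2 hbd.symm)
    set x := (c - a) * (c - b) with hx
    set y := (d - a) * (d - b) with hy
    have hxy : 0 < x * y := lt_of_le_of_ne hcon (mul_ne_zero n1 n2).symm
    rcases pos_and_pos_or_neg_and_neg_of_mul_pos hxy with ⟨px, py⟩ | ⟨px, py⟩
    · have q1 : 0 < 2 * x / (1 + c ^ 2) := by positivity
      have q2 : 0 < 2 * y / (1 + d ^ 2) := by positivity
      rcases hr'.lt_or_eq with h | h
      · have := mul_pos h q1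
        have := mul_nonneg hs' q2.le
        linarith
      · have : s' = 1 := by linarith
        rw [← h, this] at h2
        linarith
    · have q1 : 2 * x / (1 + c ^ 2) < 0 := div_neg_of_neg_of_pos (by linarith) hc
      have q2 : 2 * y / (1 + d ^ 2) < 0 := div_neg_of_neg_of_pos (by linarith) hd
      rcases hr'.lt_or_eq with h | h
      · have := mul_neg_of_pos_of_neg h q1
        have := mul_nonpos_of_nonneg_of_nonpos hs' q2.le
        linarith
      · have : s' = 1 := by linarith
        rw [← h, this] at h2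
        linarith
  · intro h
    -- parameters on the two chords
    set u := (a - c) * (a - d) / (1 + a ^ 2) with hu
    set v := (b - c) * (b - d) / (1 + b ^ 2) with hv
    set u' := (c - a) * (c - b) / (1 + c ^ 2) with hu'
    set v' := (d - a) * (d - b) / (1 + d ^ 2) with hv'
    have huv : u * v < 0 := by
      rw [hu, hv, div_mul_div_comm]
      exact div_neg_of_neg_of_pos h (by positivity)
    have huv' : u' * v' < 0 := by
      rw [hu', hv', div_mul_div_comm]
      apply div_neg_of_neg_of_pos _ (by positivity)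
      have : (c - a) * (c - b) * ((d - a) * (d - b)) =
        (a - c) * (a - d) * ((b - c) * (b - d)) := by ring
      rw [this]; exact h
    have hne : u - v ≠ 0 := by
      intro h0
      have : u = v := by linarith
      rw [this] at huv
      nlinarith [mul_self_nonneg v]
    have hne' : u' - v' ≠ 0 := by
      intro h0
      have : u' = v' := by linarith
      rw [this] at huv'
      nlinarith [mul_self_nonneg v']
    have key : ∀ x y : ℝ, x * y < 0 → x - y ≠ 0 → 0 ≤ x / (x - y) ∧ 0 ≤ -y / (x - y) := by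
      intro x y hxy _
      rcases mul_neg_iff.1 hxy with ⟨hx, hy⟩ | ⟨hx, hy⟩
      · constructor
        · apply div_nonneg hx.le; linarith
        · apply div_nonneg <;> linarith
      · constructor
        · apply div_nonneg_of_nonpos hx.le; linarith
        · apply div_nonneg_of_nonpos <;> linarith
    obtain ⟨k1, k2⟩ := key u v huv hne
    obtain ⟨k1', k2'⟩ := key u' v' huv' hne'
    refine ⟨(-v / (u - v)) • cp a + (u / (u - v)) • cp b, ⟨_, _, k2, k1, ?_, rfl⟩,
      ⟨_, _, k2', k1', ?_, ?_⟩⟩
    · rw [← add_div]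
      rw [div_eq_one_iff_eq hne]
      ring
    · rw [← add_div]
      rw [div_eq_one_iff_eq hne']
      ring
    · have e1 : ∀ x y : ℝ, -v' / (u' - v') * x + u' / (u' - v') * y =
          (-v' * x + u' * y) / (u' - v') := by intro x y; ring
      have e2 : ∀ x y : ℝ, -v / (u - v) * x + u / (u - v) * y =
          (-v * x + u * y) / (u - v) := by intro x y; ring
      apply Complex.ext
      · simp only [Complex.add_re, Complex.smul_re, smul_eq_mul, cp]
        rw [e1, e2, div_eq_div_iff hne' hne, hu, hv, hu', hv']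
        field_simp
        ring
      · simp only [Complex.add_im, Complex.smul_im, smul_eq_mul, cp]
        rw [e1, e2, div_eq_div_iff hne' hne, hu, hv, hu', hv']
        field_simp
        ring

end Pool.Agent.OC
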