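import Mathlib

set_option autoImplicit false

open Finset

/-!
Definitions: circle graphs, independence complexes, geometric realizations, wedges of spheres.
-/

namespace Pool.Agent.OC

/-- `G` is a circle graph: it is the intersection graph of the chords `[p v, q v]` of the unit
circle, the endpoints of all the chords being pairwise distinct. -/
def IsCircleGraph {V : Type*} (G : SimpleGraph V) : Prop :=
  ∃ p q : V → ℂ, (∀ v, ‖p v‖ = 1) ∧ (∀ v, ‖q v‖ = 1) ∧
    Function.Injective (Sum.elim p q : V ⊕ V → ℂ) ∧
    ∀ u v, G.Adj u v ↔ u ≠ v ∧ (segment ℝ (p u) (q u) ∩ segment ℝ (p v) (q v)).Nonempty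

/-- The independence complex: its faces are the sets of pairwise non-adjacent vertices. -/
def IndC {V : Type*} (G : SimpleGraph V) : Set (Finset V) :=
  {A | ∀ x ∈ A, ∀ y ∈ A, ¬ G.Adj x y}

/-- The support of a point. -/
noncomputable def spt {V : Type*} [Fintype V] (x : V → ℝ) : Finset V := by
  classical exact univ.filter (fun j => x j ≠ 0)

/-- The geometric realization of an abstract simplicial complex `K` on a finite vertex set `V`,
in barycentric coordinates. -/
def Geo {V : Type*} [Fintype V] (K : Set (Finset V)) : Set (V → ℝ) :=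
  {x | (∀ j, 0 ≤ x j) ∧ ∑ j, x j = 1 ∧ spt x ∈ K}

/-- The unit sphere of dimension `d`. -/
abbrev Sph (d : ℕ) : Type := Metric.sphere (0 : EuclideanSpace ℝ (Fin (d + 1))) 1

/-- The base point of the sphere. -/
noncomputable def base (d : ℕ) : Sph d :=
  ⟨EuclideanSpace.single 0 1, by simp⟩

/-- The identification of the base points of all the spheres with one point. -/
inductive WRel {ι : Type*} (d : ι → ℕ) :
    Unit ⊕ (Σ i, Sph (d i)) → Unit ⊕ (Σ i, Sph (d i)) → Prop
  | mk (i : ι) : WRel d (Sum.inl ()) (Sum.inr ⟨i, base (d i)⟩)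

/-- The wedge of the spheres of dimensions `d i`, `i : ι` (one point, if `ι` is empty). -/
def Wedge {ι : Type*} (d : ι → ℕ) : Type _ := Quot (WRel d)

instance {ι : Type*} (d : ι → ℕ) : TopologicalSpace (Wedge d) :=
  inferInstanceAs (TopologicalSpace (Quot (WRel d)))

end Pool.Agent.OC
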