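import Pool.Agent.Lib_helper43.OC.Chains
import Pool.Agent.Lib_helper43.OC.Defs

set_option autoImplicit false
set_option linter.unusedSectionVars false

open Finset

/-! Finite simplicial complexes, their ordered chains, acyclicity, geometric realization. -/

namespace Pool.Agent.OC

section
variable {R : Type*} [CommRing R]
variable {V : Type*} [DecidableEq V]

/-- closed under passing to subsets. -/
def Down (K : Set (Finset V)) : Prop := ∀ A ∈ K, ∀ B, B ⊆ A → B ∈ K

variable (R) in
/-- (augmented) acyclicity. -/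
def Acyc (K : Set (Finset V)) : Prop :=
  ∀ c : OCh R V, Supp (fun l => l.toFinset ∈ K) c → bd R V c = 0 →
    ∃ w : OCh R V, Supp (fun l => l.toFinset ∈ K) w ∧ bd R V w = c

theorem toFinset_eraseIdx_subset (l : List V) (i : ℕ) : (l.eraseIdx i).toFinset ⊆ l.toFinset := by
  intro x hx
  rw [List.mem_toFinset] at hx ⊢
  exact (List.eraseIdx_sublist l i).subset hx

theorem supp_bd_in {K : Set (Finset V)} (hK : Down K) {c : OCh R V}
    (hc : Supp (fun l => l.toFinset ∈ K) c) : Supp (fun l => l.toFinset ∈ K) (bd R V c) := by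
  apply hc.bd
  intro l hl i _
  exact hK _ hl _ (toFinset_eraseIdx_subset l i)

end

section
variable {V : Type*} [Fintype V] [DecidableEq V]

theorem mem_spt (x : V → ℝ) (j : V) : j ∈ spt x ↔ x j ≠ 0 := by
  simp [spt]

/-- neighbourhoods of closed geometric faces. -/
def Nb (c : ℝ) (A : Finset V) : Set (V → ℝ) :=
  {x | (∀ j, 0 ≤ x j) ∧ ∑ j, x j = 1 ∧ ∀ j, j ∉ A → x j ≤ c}

theorem nb_mono {c c' : ℝ} (h : c ≤ c') (A : Finset V) : Nb c A ⊆ Nb c' A :=
  fun _ hx => ⟨hx.1, hx.2.1, fun j hj => (hx.2.2 j hj).trans h⟩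

theorem spt_subset_of_nb {A : Finset V} {x : V → ℝ} (hx : x ∈ Nb 0 A) : spt x ⊆ A := by
  intro j hj
  rw [mem_spt] at hj
  by_contra h
  exact hj (le_antisymm (hx.2.2 j h) (hx.1 j))

theorem nb_subset_geo {K : Set (Finset V)} (hK : Down K) {A : Finset V}
    (hA : A ∈ K) : Nb 0 A ⊆ Geo K := by
  intro x hx
  exact ⟨hx.1, hx.2.1, hK A hA _ (spt_subset_of_nb hx)⟩

theorem mem_nb_spt {K : Set (Finset V)} {x : V → ℝ} (hx : x ∈ Geo K) : x ∈ Nb 0 (spt x) := by
  refine ⟨hx.1, hx.2.1, ?_⟩
  intro j hj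
  rw [mem_spt, not_not] at hj
  exact hj.le

theorem convex_nb (c : ℝ) (A : Finset V) : Convex ℝ (Nb c A) := by
  intro x hx y hy a b ha hb hab
  refine ⟨?_, ?_, ?_⟩
  · intro j
    have h1 := mul_nonneg ha (hx.1 j)
    have h2 := mul_nonneg hb (hy.1 j)
    simp only [Pi.add_apply, Pi.smul_apply, smul_eq_mul]
    linarith
  · simp only [Pi.add_apply, Pi.smul_apply, smul_eq_mul]
    rw [Finset.sum_add_distrib, ← Finset.mul_sum, ← Finset.mul_sum, hx.2.1, hy.2.1]
    linarith
  · intro j hj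
    simp only [Pi.add_apply, Pi.smul_apply, smul_eq_mul]
    have h1 := mul_le_mul_of_nonneg_left (hx.2.2 j hj) ha
    have h2 := mul_le_mul_of_nonneg_left (hy.2.2 j hj) hb
    have h3 : a * c + b * c = c := by rw [← add_mul, hab, one_mul]
    linarith

theorem isClosed_nb (c : ℝ) (A : Finset V) : IsClosed (Nb c A) := by
  have h1 : IsClosed {x : V → ℝ | ∀ j, 0 ≤ x j} := by
    rw [Set.ofPred_forall]
    exact isClosed_iInter (fun j => isClosed_le continuous_const (continuous_apply j))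
  have h2 : IsClosed {x : V → ℝ | ∑ j, x j = 1} :=
    isClosed_eq (continuous_finsetSum _ (fun j _ => continuous_apply j)) continuous_const
  have h3 : IsClosed {x : V → ℝ | ∀ j, j ∉ A → x j ≤ c} := by
    rw [Set.ofPred_forall]
    refine isClosed_iInter (fun j => ?_)
    by_cases h : j ∉ A
    · simp only [h, not_false_eq_true, forall_const]
      exact isClosed_le (continuous_apply j) continuous_const
    · simp [h]
  exact h1.inter (h2.inter h3)

theorem coord_le_one {c : ℝ} {A : Finset V} {x : V → ℝ} (hx : x ∈ Nb c A) (j : V) :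
    x j ≤ 1 := by
  rw [← hx.2.1]
  exact Finset.single_le_sum (fun i _ => hx.1 i) (Finset.mem_univ j)

theorem isCompact_nb (c : ℝ) (A : Finset V) : IsCompact (Nb c A) := by
  apply Metric.isCompact_of_isClosed_isBounded (isClosed_nb c A)
  refine (Metric.isBounded_closedBall (x := (0 : V → ℝ)) (r := 1)).subset ?_
  intro x hx
  rw [Metric.mem_closedBall, dist_zero_right, pi_norm_le_iff_of_nonneg zero_le_one]
  intro j
  rw [Real.norm_of_nonneg (hx.1 j)]
  exact coord_le_one hx j

theorem geo_eq {K : Set (Finset V)} (hK : Down K) : Geo K = ⋃ A ∈ K, Nb 0 A := by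
  ext x
  simp only [Set.mem_iUnion]
  constructor
  · intro hx
    exact ⟨spt x, hx.2.2, mem_nb_spt hx⟩
  · rintro ⟨A, hA, hx⟩
    exact nb_subset_geo hK hA hx

theorem isCompact_geo {K : Set (Finset V)} (hK : Down K) : IsCompact (Geo K) := by
  rw [geo_eq hK]
  exact (Set.toFinite K).isCompact_biUnion (fun A _ => isCompact_nb 0 A)

theorem geo_subset_simplex (K : Set (Finset V)) : Geo K ⊆ Nb 0 (univ : Finset V) :=
  fun _ hx => ⟨hx.1, hx.2.1, fun j hj => absurd (Finset.mem_univ j) hj⟩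

theorem nb_subset_simplex {c : ℝ} (A : Finset V) : Nb c A ⊆ Nb 0 (univ : Finset V) :=
  fun _ hx => ⟨hx.1, hx.2.1, fun j hj => absurd (Finset.mem_univ j) hj⟩

/-- a coordinate of maximal value. -/
noncomputable def am [Nonempty V] (x : V → ℝ) : V :=
  (Finite.exists_max x).choose

theorem le_am [Nonempty V] (x : V → ℝ) (j : V) : x j ≤ x (am x) :=
  (Finite.exists_max x).choose_spec j

theorem am_ge [Nonempty V] (x : V → ℝ) (hx : ∑ j, x j = 1) :
    1 / (Fintype.card V : ℝ) ≤ x (am x) := by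
  have h1 : ∑ j, x j ≤ ∑ _j : V, x (am x) := Finset.sum_le_sum (fun j _ => le_am x j)
  rw [hx, Finset.sum_const, Finset.card_univ, nsmul_eq_mul] at h1
  have hn : (0 : ℝ) < Fintype.card V := by
    exact_mod_cast Fintype.card_pos
  rw [div_le_iff₀ hn]
  linarith

theorem am_mem_nb [Nonempty V] {x : V → ℝ} {c : ℝ} {A : Finset V} (hx : x ∈ Nb c A)
    (hc : c < 1 / (Fintype.card V : ℝ)) : am x ∈ A := by
  by_contra h
  have h1 := hx.2.2 _ h
  have h2 := am_ge x hx.2.1
  linarith

/-- vertices of the standard simplex. -/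
noncomputable def vx (v : V) : V → ℝ := Pi.single v 1

theorem vx_mem {A : Finset V} {v : V} (h : v ∈ A) : vx v ∈ Nb 0 A := by
  refine ⟨?_, ?_, ?_⟩
  · intro j
    by_cases hj : j = v
    · subst hj; simp [vx]
    · simp [vx, hj]
  · simp [vx]
  · intro j hj
    have : j ≠ v := fun e => hj (e ▸ h)
    simp [vx, this]

theorem am_vx [Nonempty V] (v : V) : am (vx v : V → ℝ) = v := by
  have h1 := le_am (vx v : V → ℝ) v
  by_contra h
  have h2 : (vx v : V → ℝ) (am (vx v : V → ℝ)) = 0 := by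
    have h' : am (vx v : V → ℝ) ≠ v := h
    generalize am (vx v : V → ℝ) = w at h'
    simp [vx, h']
  rw [h2] at h1
  have h3 : (vx v : V → ℝ) v = 1 := by simp [vx]
  linarith

/-- membership in a neighbourhood of the face of a nearby point. -/
theorem mem_nb_of_dist {K : Set (Finset V)} {x y : V → ℝ} {c : ℝ} (hx : x ∈ Geo K)
    (h : dist x y ≤ c) : x ∈ Nb c (spt y) := by
  refine ⟨hx.1, hx.2.1, ?_⟩
  intro j hj
  rw [mem_spt, not_not] at hj
  have h2 : dist (x j) (y j) ≤ dist x y := dist_le_pi_dist x y j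
  rw [Real.dist_eq, hj, sub_zero] at h2
  exact (le_abs_self _).trans (h2.trans h)

/-! ### the pushing map -/

/-- push towards the faces. -/
noncomputable def rc (c : ℝ) (x : V → ℝ) : V → ℝ :=
  fun j => max (x j - c) 0 / ∑ i, max (x i - c) 0

theorem rc_sum_ge {c : ℝ} {x : V → ℝ} (hx : ∑ j, x j = 1) :
    1 - (Fintype.card V : ℝ) * c ≤ ∑ i, max (x i - c) 0 := by
  have h1 : ∑ i, (x i - c) ≤ ∑ i, max (x i - c) 0 :=
    Finset.sum_le_sum (fun i _ => le_max_left _ _)
  rw [Finset.sum_sub_distrib, hx, Finset.sum_const, Finset.card_univ, nsmul_eq_mul] at h1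
  exact h1

theorem rc_sum_le {c : ℝ} {x : V → ℝ} (hc : 0 ≤ c) (hx0 : ∀ j, 0 ≤ x j) (hx : ∑ j, x j = 1) :
    ∑ i, max (x i - c) 0 ≤ 1 := by
  rw [← hx]
  apply Finset.sum_le_sum
  intro i _
  apply max_le
  · linarith
  · exact hx0 i

theorem rc_mem {c : ℝ} {A : Finset V} {x : V → ℝ} (hc : (Fintype.card V : ℝ) * c < 1)
    (hx : x ∈ Nb c A) : rc c x ∈ Nb 0 A := by
  have hs : 0 < ∑ i, max (x i - c) 0 := by
    have := rc_sum_ge (c := c) hx.2.1
    linarith
  refine ⟨?_, ?_, ?_⟩
  · intro j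
    exact div_nonneg (le_max_right _ _) hs.le
  · unfold rc
    rw [← Finset.sum_div, div_self hs.ne']
  · intro j hj
    have : max (x j - c) 0 = 0 := max_eq_right (by linarith [hx.2.2 j hj])
    simp only [rc]
    rw [this, zero_div]

theorem dist_rc {c : ℝ} {x : V → ℝ} (hc0 : 0 ≤ c) (hc : 2 * ((Fintype.card V : ℝ) * c) ≤ 1)
    (hx0 : ∀ j, 0 ≤ x j) (hx : ∑ j, x j = 1) :
    dist (rc c x) x ≤ 2 * ((Fintype.card V : ℝ) * c) := by
  have hV : 1 ≤ (Fintype.card V : ℝ) := by
    have : 0 < Fintype.card V := by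
      rcases isEmpty_or_nonempty V with h | h
      · simp at hx
      · exact Fintype.card_pos
    exact_mod_cast this
  have hcc : c ≤ (Fintype.card V : ℝ) * c := le_mul_of_one_le_left hc0 hV
  have h1 := rc_sum_ge (c := c) hx
  have h2 := rc_sum_le hc0 hx0 hx
  rw [dist_pi_le_iff (by positivity)]
  intro j
  have hxj : x j ≤ 1 := by
    rw [← hx]
    exact Finset.single_le_sum (fun i _ => hx0 i) (Finset.mem_univ j)
  have hxj0 := hx0 j
  set s := ∑ i, max (x i - c) 0 with hs
  set q := (Fintype.card V : ℝ) * c with hq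
  have hs0 : 0 < s := by linarith
  rw [Real.dist_eq, abs_le]
  have e1 : rc c x j = max (x j - c) 0 / s := rfl
  rw [e1]
  have hm0 : 0 ≤ max (x j - c) 0 := le_max_right _ _
  have hm1 : x j - c ≤ max (x j - c) 0 := le_max_left _ _
  have hm2 : max (x j - c) 0 ≤ x j := max_le (by linarith) hxj0
  constructor
  · have : max (x j - c) 0 ≤ max (x j - c) 0 / s := by
      rw [le_div_iff₀ hs0]
      nlinarith
    linarith
  · have : max (x j - c) 0 / s ≤ x j + 2 * q := by
      rw [div_le_iff₀ hs0]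
      have hq0 : 0 ≤ q := by positivity
      have : x j ≤ (x j + 2 * q) * (1 - q) := by nlinarith
      have h3 : (x j + 2 * q) * (1 - q) ≤ (x j + 2 * q) * s := by
        apply mul_le_mul_of_nonneg_left h1
        positivity
      linarith
    linarith

theorem continuousOn_rc {c : ℝ} (hc : (Fintype.card V : ℝ) * c < 1) (A : Finset V) (c' : ℝ) :
    ContinuousOn (rc c) (Nb c' A) := by
  rw [continuousOn_pi]
  intro j
  apply ContinuousOn.div
  · fun_prop
  · fun_prop
  · intro x hx
    have := rc_sum_ge (c := c) hx.2.1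
    have : 0 < ∑ i, max (x i - c) 0 := by linarith
    exact this.ne'

end

end Pool.Agent.OC
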