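import Pool.Agent.Lib_helper43.OC.Sorted

set_option autoImplicit false

/-! Certificate data. -/

namespace Pool.Agent.OC.D37

/-- the adjacency matrix (rows of 96 bits). -/
def M : ℕ :=
  0x500880000000000000000001a208000000001000000000014818008000000000000000018e080000000000000000000032800000000000000000020110888000000000000000100158c0008000001000000010000000008800000000000000010e0840080000000000280000020010000000000000080201000000080000000000000200200880000100100000000200f494508240000010000012000008d00841000000002800000000f008410000000028000000001000000000000020100084164002c000101000000001008eb0c2c100000000001001000250c2d000001000001200004f6a00900010010000000000001482d00000100000120000000a0690001001000000000000152080000000000002010000020e900010010000000823086804000010000020000000006002d00010100000000100000209000000000000020800000004200010000020000001a60120a00000000000011000000592c00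04010000012000008ed45390010000000020000000022d0101010000000010000ff4d7930000000280020000ee8459a200005002800000000001a921050010000000800003d43ef7000008000100100000002d250403000001200000000001210502100000028000000007d52802080280020001640029211001500000000000000000001001500000000000000001a2180240028000000000000d05a10300000010100000001bf23982080000200000000000021882500280000000000000003b820800002000000000002355921000000280000000001de85208068002800000000025d033000001200000000042c02140000280000000000000004011500000000421095d324364d000088000000000000001e1530014000010000000000015ae1000000280000000000008560802800a8000000000003bae08140024000000000000005700140088100000000000007b000001ac4000000000e7f8fc0c8441cc50008a84509a0a8c9080400000000000000000015000000000000000041c8200a0040008000000000000000048000000000001500658a2418804000800000000012150323400080000000000000000020a10080000000000000000000500000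0000000000000000002000080000000000000000300540888000000000000000000a00000000000000000000000400000400000000000009804888080400000000000010000128000000000000000109a50828880400870090c249420000d0004000000000000000000020100000c60000c249520001c010400000000000000030000298c40000000000000000000500000000000000000000000204000000000000000000c8445c4400000000000000000000a0000000000000000000000040020609680418008060001c840200000000000000e019448646000000000000002000019a0208782a260814814000000d0800000008002000000000022800000000000002e50804006e0000000000000160002c88aa0000000086030600000001d00000000800000000000000210000012024030600000003c1000000000000006003448883000000000000000000003cc5ed40c241102008a00000001e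

/-- the set of original vertices. -/
def S0 : ℕ := 0x1fffffffff

/-- the core. -/
def S1 : ℕ := 0xfa1880000000100000000001

/-- the moves. -/
def mv : List Mv := [
  .a 37 (.n 14 (.i 1) (.i 15)),
  .d 1 (.n 8 (.i 4) (.n 18 (.i 14) (.n 22 (.i 14) (.n 27 (.i 14) (.n 30 (.i 14) (.n 31 (.i 14) (.i 37))))))),
  .d 15 (.i 13),
  .l 13 (.i 14),
  .a 38 (.n 17 (.i 10) (.i 18)),
  .d 10 (.n 6 (.i 8) (.n 7 (.i 8) (.n 2 (.i 17) (.n 36 (.i 17) (.i 38))))),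
  .d 18 (.i 16),
  .l 16 (.i 17),
  .a 39 (.n 26 (.i 2) (.i 27)),
  .d 2 (.n 6 (.i 4) (.n 8 (.i 4) (.n 36 (.i 26) (.i 39)))),
  .d 27 (.i 25),
  .l 25 (.i 26),
  .a 40 (.n 7 (.i 8) (.n 29 (.i 11) (.i 30))),
  .d 11 (.n 7 (.i 8) (.n 31 (.i 29) (.i 40))),
  .d 30 (.i 28),
  .l 28 (.i 29),
  .a 41 (.i 6),
  .d 6 (.n 39 (.i 4) (.n 35 (.i 22) (.n 22 (.i 36) (.n 31 (.i 34) (.i 41))))),
  .a 42 (.n 22 (.i 7) (.n 33 (.i 7) (.n 35 (.i 7) (.i 36)))),
  .d 7 (.i 42),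
  .a 43 (.n 8 (.i 4) (.n 38 (.i 3) (.i 39))),
  .d 39 (.i 43),
  .a 44 (.i 24),
  .d 24 (.n 3 (.i 44) (.n 5 (.i 44) (.n 37 (.i 4) (.n 38 (.i 8) (.n 21 (.i 12) (.n 35 (.i 22) (.n 22 (.i 36) (.n 31 (.i 34) (.n 42 (.i 36) (.i 41)))))))))),
  .a 45 (.i 35),
  .d 35 (.n 37 (.i 33) (.n 40 (.i 33) (.i 45))),
  .a 46 (.i 23),
  .d 23 (.n 37 (.i 20) (.n 38 (.i 20) (.n 3 (.i 46) (.n 5 (.i 46) (.n 43 (.i 4) (.n 40 (.i 8) (.n 45 (.i 22) (.n 22 (.i 36) (.n 31 (.i 34) (.n 42 (.i 36) (.i 41))))))))))),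
  .a 47 (.n 42 (.i 8) (.i 38)),
  .d 38 (.i 47),
  .a 48 (.i 41),
  .d 41 (.n 43 (.i 4) (.n 22 (.i 33) (.i 48))),
  .a 49 (.i 42),
  .d 42 (.n 40 (.i 8) (.i 49)),
  .a 50 (.n 22 (.i 33) (.i 40)),
  .d 40 (.i 50),
  .a 51 (.i 22),
  .d 22 (.n 47 (.i 20) (.i 51)),
  .a 52 (.n 45 (.i 33) (.i 50)),
  .d 50 (.i 52),
  .a 53 (.i 43),
  .d 43 (.n 8 (.i 4) (.i 53)),
  .a 54 (.n 32 (.i 33) (.i 51)),
  .d 51 (.i 54),
  .a 55 (.i 45),
  .d 45 (.n 37 (.i 33) (.n 48 (.i 33) (.i 55))),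
  .a 56 (.i 55),
  .d 55 (.n 37 (.i 33) (.n 52 (.i 33) (.i 56))),
  .a 57 (.n 3 (.i 4) (.i 48)),
  .d 48 (.i 57),
  .a 58 (.n 53 (.i 4) (.i 49)),
  .d 49 (.i 58),
  .a 59 (.i 47),
  .d 47 (.n 58 (.i 19) (.n 53 (.i 3) (.n 46 (.i 20) (.i 59)))),
  .a 60 (.i 37),
  .d 37 (.n 8 (.i 4) (.n 46 (.i 20) (.n 56 (.i 33) (.i 60)))),
  .a 61 (.n 59 (.i 19) (.n 5 (.i 9) (.i 58))),
  .d 58 (.i 61),
  .a 62 (.i 54),
  .d 54 (.n 32 (.i 33) (.i 62)),
  .l 33 (.n 56 (.i 31) (.n 61 (.i 31) (.n 19 (.i 34) (.n 21 (.i 34) (.n 59 (.i 20) (.n 60 (.i 20) (.n 32 (.i 34) (.n 53 (.i 34) (.i 36))))))))),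
  .a 63 (.i 57),
  .d 57 (.n 3 (.i 4) (.n 53 (.i 4) (.i 63))),
  .a 64 (.n 8 (.i 4) (.i 53)),
  .d 53 (.i 64),
  .a 65 (.n 62 (.i 36) (.n 63 (.i 46) (.i 52))),
  .d 52 (.i 65),
  .a 66 (.n 61 (.i 19) (.n 64 (.i 19) (.n 60 (.i 32) (.i 59)))),
  .d 59 (.i 66),
  .a 67 (.i 5),
  .d 5 (.n 3 (.i 67) (.n 62 (.i 0) (.n 65 (.i 0) (.n 12 (.i 9) (.n 36 (.i 9) (.n 46 (.i 9) (.n 61 (.i 19) (.i 67)))))))),
  .a 68 (.n 19 (.i 20) (.i 46)),
  .d 46 (.i 68),
  .a 69 (.i 8),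
  .d 8 (.n 60 (.i 4) (.n 64 (.i 4) (.i 69))),
  .a 70 (.n 61 (.i 4) (.n 69 (.i 4) (.i 64))),
  .d 64 (.i 70),
  .a 71 (.n 60 (.i 19) (.n 19 (.i 20) (.n 3 (.i 68) (.n 32 (.i 68) (.n 63 (.i 36) (.n 65 (.i 36) (.n 67 (.i 9) (.n 70 (.i 4) (.i 62))))))))),
  .d 68 (.i 71),
  .a 72 (.i 61),
  .d 61 (.n 70 (.i 4) (.n 66 (.i 19) (.i 72))),
  .a 73 (.i 3),
  .d 3 (.n 63 (.i 4) (.i 73)),
  .a 74 (.n 67 (.i 9) (.i 72)),
  .d 72 (.i 74),
  .a 75 (.i 66),
  .d 66 (.n 70 (.i 19) (.n 60 (.i 32) (.i 75))),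
  .a 76 (.n 65 (.i 36) (.i 74)),
  .d 74 (.i 76),
  .a 77 (.i 75),
  .d 75 (.n 70 (.i 19) (.i 77)),
  .a 78 (.i 60),
  .d 60 (.n 69 (.i 4) (.n 71 (.i 19) (.i 78))),
  .a 79 (.n 69 (.i 4) (.n 76 (.i 9) (.n 20 (.i 19) (.n 77 (.i 19) (.i 70))))),
  .d 70 (.i 79),
  .a 80 (.i 20),
  .d 20 (.n 79 (.i 19) (.n 65 (.i 71) (.n 76 (.i 71) (.i 80)))),
  .a 81 (.n 73 (.i 4) (.i 63)),
  .d 63 (.i 81),
  .a 82 (.n 73 (.i 4) (.n 77 (.i 32) (.i 81))),
  .d 81 (.i 82),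
  .a 83 (.i 77),
  .d 77 (.n 79 (.i 19) (.n 82 (.i 32) (.i 83))),
  .a 84 (.n 78 (.i 19) (.i 65)),
  .d 65 (.i 84),
  .a 85 (.n 73 (.i 4) (.i 69)),
  .d 69 (.i 85),
  .a 86 (.i 73),
  .d 73 (.n 82 (.i 4) (.n 85 (.i 4) (.n 12 (.i 86) (.n 62 (.i 80) (.n 71 (.i 80) (.n 36 (.i 78) (.n 78 (.i 32) (.n 84 (.i 32) (.i 83))))))))),
  .l 32 (.n 78 (.i 36) (.n 82 (.i 36) (.n 84 (.i 36) (.n 79 (.i 56) (.n 83 (.i 56) (.n 19 (.n 67 (.i 0) (.n 80 (.i 71) (.i 76))) (.n 21 (.i 12) (.i 62)))))))),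
  .a 87 (.n 79 (.i 4) (.i 82)),
  .d 82 (.i 87),
  .a 88 (.i 4),
  .d 4 (.n 83 (.i 85) (.n 84 (.i 85) (.n 71 (.i 79) (.i 88)))),
  .a 89 (.i 19),
  .d 19 (.n 71 (.i 80) (.i 89)),
  .a 90 (.n 21 (.i 78) (.i 80)),
  .d 78 (.i 90),
  .l 80 (.n 87 (.i 12) (.n 44 (.i 21) (.n 83 (.i 21) (.n 88 (.i 21) (.n 89 (.i 21) (.n 0 (.i 12) (.n 79 (.i 12) (.n 9 (.i 67) (.i 84))))))))),
  .a 91 (.i 86),
  .d 86 (.n 87 (.i 85) (.i 91)),
  .a 92 (.n 85 (.i 87) (.n 44 (.i 9) (.n 79 (.i 9) (.n 67 (.i 0) (.i 87))))),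
  .d 87 (.i 92),
  .a 93 (.n 67 (.i 9) (.i 88)),
  .d 88 (.n 83 (.i 85) (.n 84 (.i 85) (.n 91 (.i 85) (.i 93)))),
  .d 9 (.i 67),
  .l 67 (.i 85),
  .a 94 (.i 71),
  .d 71 (.n 0 (.i 84) (.i 94)),
  .a 95 (.i 90),
  .d 90 (.n 94 (.i 84) (.i 95))]

/-- contraction modulo 3. -/
def T : List (List ℕ × List (ℤ × List ℕ)) := [
  ([], [(1, [0])]),
  ([44], [(1, [0, 44])]),
  ([79], [(1, [0, 83]), (-1, [79, 83])]),
  ([83], [(1, [0, 83])]),
  ([84], [(1, [0, 84])]),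
  ([89], [(1, [0, 89])]),
  ([91], [(1, [0, 44]), (1, [44, 91])]),
  ([92], [(1, [0, 92])]),
  ([93], [(1, [0, 44]), (1, [44, 93])]),
  ([94], [(1, [0, 83]), (-1, [79, 83]), (1, [79, 94])]),
  ([95], [(1, [0, 44]), (1, [44, 95])]),
  ([44, 83], [(1, [0, 44, 83])]),
  ([44, 92], [(1, [0, 44, 92])]),
  ([79, 89], [(1, [0, 83, 89]), (-1, [79, 83, 89])]),
  ([79, 91], [(-1, [0, 44, 83]), (1, [44, 83, 91]), (-1, [79, 83, 91])]),
  ([79, 92], [(1, [0, 44, 83]), (-1, [0, 44, 92]), (-1, [0, 83, 89]), (1, [0, 84, 89]), (-1, [0, 84, 92]), (-1, [44, 83, 91]), (-1, [44, 91, 95]), (1, [44, 92, 93]), (1, [44, 93, 95]), (1, [79, 83, 89]), (1, [79, 83, 91]), (1, [79, 89, 93]), (1, [79, 91, 94]), (-1, [79, 92, 93]), (-1, [79, 92, 94]), (-1, [84, 89, 95]), (-1, [84, 91, 94]), (1, [84, 91, 95]), (1, [84, 92, 94]), (-1, [89, 93, 95])]),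
  ([79, 93], [(1, [0, 44, 83]), (1, [0, 44, 92]), (-1, [0, 83, 89]), (1, [0, 84, 89]), (-1, [0, 84, 92]), (-1, [44, 83, 91]), (-1, [44, 91, 95]), (-1, [44, 92, 93]), (1, [44, 93, 95]), (1, [79, 83, 89]), (1, [79, 83, 91]), (1, [79, 89, 93]), (1, [79, 91, 94]), (1, [79, 92, 93]), (-1, [79, 92, 94]), (-1, [84, 89, 95]), (-1, [84, 91, 94]), (1, [84, 91, 95]), (1, [84, 92, 94]), (-1, [89, 93, 95])]),
  ([83, 89], [(1, [0, 83, 89])]),
  ([83, 91], [(-1, [0, 44, 83]), (1, [44, 83, 91])]),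
  ([84, 89], [(1, [0, 84, 89])]),
  ([84, 91], [(1, [0, 44, 83]), (1, [0, 44, 92]), (1, [0, 83, 89]), (-1, [0, 84, 89]), (-1, [0, 84, 92]), (-1, [44, 83, 91]), (1, [44, 91, 95]), (-1, [44, 92, 93]), (-1, [44, 93, 95]), (-1, [79, 83, 89]), (1, [79, 83, 91]), (-1, [79, 89, 93]), (1, [79, 91, 94]), (1, [79, 92, 93]), (-1, [79, 92, 94]), (1, [84, 89, 95]), (-1, [84, 91, 94]), (-1, [84, 91, 95]), (1, [84, 92, 94]), (1, [89, 93, 95])]),
  ([84, 92], [(1, [0, 84, 92])]),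
  ([84, 94], [(-1, [0, 44, 83]), (1, [0, 44, 92]), (1, [0, 83, 89]), (-1, [0, 84, 89]), (-1, [0, 84, 92]), (1, [44, 83, 91]), (1, [44, 91, 95]), (-1, [44, 92, 93]), (-1, [44, 93, 95]), (-1, [79, 83, 89]), (-1, [79, 83, 91]), (-1, [79, 89, 93]), (-1, [79, 91, 94]), (1, [79, 92, 93]), (-1, [79, 92, 94]), (1, [84, 89, 95]), (1, [84, 91, 94]), (-1, [84, 91, 95]), (1, [84, 92, 94]), (1, [89, 93, 95])]),
  ([84, 95], [(1, [0, 44, 83]), (1, [0, 44, 92]), (1, [0, 83, 89]), (-1, [0, 84, 89]), (-1, [0, 84, 92]), (-1, [44, 83, 91]), (-1, [44, 91, 95]), (-1, [44, 92, 93]), (-1, [44, 93, 95]), (-1, [79, 83, 89]), (1, [79, 83, 91]), (-1, [79, 89, 93]), (1, [79, 91, 94]), (1, [79, 92, 93]), (-1, [79, 92, 94]), (1, [84, 89, 95]), (-1, [84, 91, 94]), (1, [84, 91, 95]), (1, [84, 92, 94]), (1, [89, 93, 95])]),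
  ([89, 93], [(1, [0, 44, 83]), (1, [0, 44, 92]), (1, [0, 83, 89]), (1, [0, 84, 89]), (-1, [0, 84, 92]), (-1, [44, 83, 91]), (-1, [44, 91, 95]), (-1, [44, 92, 93]), (1, [44, 93, 95]), (-1, [79, 83, 89]), (1, [79, 83, 91]), (-1, [79, 89, 93]), (1, [79, 91, 94]), (1, [79, 92, 93]), (-1, [79, 92, 94]), (-1, [84, 89, 95]), (-1, [84, 91, 94]), (1, [84, 91, 95]), (1, [84, 92, 94]), (-1, [89, 93, 95])]),
  ([89, 95], [(1, [0, 44, 83]), (1, [0, 44, 92]), (1, [0, 83, 89]), (1, [0, 84, 89]), (-1, [0, 84, 92]), (-1, [44, 83, 91]), (-1, [44, 91, 95]), (-1, [44, 92, 93]), (-1, [44, 93, 95]), (-1, [79, 83, 89]), (1, [79, 83, 91]), (-1, [79, 89, 93]), (1, [79, 91, 94]), (1, [79, 92, 93]), (-1, [79, 92, 94]), (-1, [84, 89, 95]), (-1, [84, 91, 94]), (1, [84, 91, 95]), (1, [84, 92, 94]), (1, [89, 93, 95])]),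
  ([91, 94], [(1, [0, 44, 83]), (-1, [44, 83, 91]), (1, [79, 83, 91]), (1, [79, 91, 94])]),
  ([91, 95], [(1, [44, 91, 95])]),
  ([92, 93], [(-1, [0, 44, 92]), (1, [44, 92, 93])]),
  ([92, 94], [(-1, [0, 44, 83]), (1, [0, 44, 92]), (1, [0, 83, 89]), (-1, [0, 84, 89]), (1, [0, 84, 92]), (1, [44, 83, 91]), (1, [44, 91, 95]), (-1, [44, 92, 93]), (-1, [44, 93, 95]), (-1, [79, 83, 89]), (-1, [79, 83, 91]), (-1, [79, 89, 93]), (-1, [79, 91, 94]), (1, [79, 92, 93]), (-1, [79, 92, 94]), (1, [84, 89, 95]), (1, [84, 91, 94]), (-1, [84, 91, 95]), (-1, [84, 92, 94]), (1, [89, 93, 95])]),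
  ([93, 95], [(1, [44, 93, 95])])]

/-- the mod 2 cycle. -/
def Z : List (ℤ × List ℕ) := [
  (1, [0, 44, 83]), (1, [0, 44, 92]), (1, [0, 83, 89]), (1, [0, 84, 89]), (1, [0, 84, 92]), (1, [44, 83, 91]), (1, [44, 91, 95]), (1, [44, 92, 93]), (1, [44, 93, 95]), (1, [79, 83, 89]), (1, [79, 83, 91]), (1, [79, 89, 93]), (1, [79, 91, 94]), (1, [79, 92, 93]), (1, [79, 92, 94]), (1, [84, 89, 95]), (1, [84, 91, 94]), (1, [84, 91, 95]), (1, [84, 92, 94]), (1, [89, 93, 95])]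

theorem symm_ok : chkSy 96 M = true := by decide +kernel

theorem run_ok : run (row 96 M) mv S0 S1 = true := by decide +kernel

theorem c_ok : chkC 3 96 (row 96 M) S1 T = true := by decide +kernel

theorem t_ok : chkT 2 96 (row 96 M) S1 3 [0, 44, 83] Z = true := by decide +kernel


theorem acyc3 : Acyc (ZMod 3) (Ind (row 96 M) S0) :=
  (run_sound (chkSy_sound symm_ok) mv S0 S1 run_ok).2 (chkC_sound c_ok)

theorem not_acyc2 : ¬ Acyc (ZMod 2) (Ind (row 96 M) S0) := fun h =>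
  chkT_sound (R := ZMod 2) t_ok ((run_sound (chkSy_sound symm_ok) mv S0 S1 run_ok).1 h)

end Pool.Agent.OC.D37
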