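import Pool.Agent.Lib_helper43.OC.Complex

set_option autoImplicit false
set_option linter.unusedSectionVars false

open Finset

/-! Mayer-Vietoris arguments, link and deletion. -/

namespace Pool.Agent.OC

section
variable {R : Type*} [CommRing R]
variable {V : Type*} [DecidableEq V]

open Classical in
/-- splitting a chain. -/
theorem split {A B : Set (Finset V)} {c : OCh R V}
    (hc : Supp (fun l => l.toFinset ∈ A ∪ B) c) :
    ∃ c1 c2 : OCh R V, Supp (fun l => l.toFinset ∈ A) c1 ∧ Supp (fun l => l.toFinset ∈ B) c2 ∧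
      c = c1 + c2 := by
  refine ⟨c.filter (fun l => l.toFinset ∈ A), c.filter (fun l => ¬ l.toFinset ∈ A), ?_, ?_, ?_⟩
  · intro l hl
    exact Finsupp.filter_apply_neg _ _ hl
  · intro l hl
    by_cases h : l.toFinset ∈ A
    · exact Finsupp.filter_apply_neg _ _ (by simpa using h)
    · have e : (c.filter (fun l => ¬ l.toFinset ∈ A)) l = c l :=
        Finsupp.filter_apply_pos (fun l : List V => ¬ l.toFinset ∈ A) c h
      rw [e]
      exact hc l (fun h' => h'.elim h hl)
  · exact (Finsupp.filter_add_filter_not c _).symm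

theorem Supp.inter {P Q : List V → Prop} {c : OCh R V} (h1 : Supp P c) (h2 : Supp Q c) :
    Supp (fun l => P l ∧ Q l) c := by
  intro l hl
  by_cases hP : P l
  · exact h2 l (fun hQ => hl ⟨hP, hQ⟩)
  · exact h1 l hP

theorem mv1 {A B : Set (Finset V)} (hA : Down A) (hB : Down B) (h1 : Acyc R A) (h2 : Acyc R B)
    (h3 : Acyc R (A ∩ B)) : Acyc R (A ∪ B) := by
  intro z hz hbz
  obtain ⟨z1, z2, hz1, hz2, rfl⟩ := split hz
  have e : bd R V z1 = - bd R V z2 := by
    rw [map_add] at hbz
    exact eq_neg_of_add_eq_zero_left hbz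
  have hb1 : Supp (fun l => l.toFinset ∈ A) (bd R V z1) := supp_bd_in hA hz1
  have hb2 : Supp (fun l => l.toFinset ∈ B) (bd R V z1) := by
    rw [e]
    have := (supp_bd_in hB hz2).smul (-1 : R)
    simpa using this
  obtain ⟨y, hy, hy'⟩ := h3 (bd R V z1) (hb1.inter hb2) (bd_bd _)
  obtain ⟨w1, hw1, hw1'⟩ := h1 (z1 - y) (hz1.sub (hy.mono (fun l hl => hl.1))) (by
    rw [map_sub, hy', sub_self])
  obtain ⟨w2, hw2, hw2'⟩ := h2 (z2 + y) (hz2.add (hy.mono (fun l hl => hl.2))) (by
    rw [map_add, hy', e]; abel)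
  refine ⟨w1 + w2, (hw1.mono (fun l hl => Or.inl hl)).add (hw2.mono (fun l hl => Or.inr hl)), ?_⟩
  rw [map_add, hw1', hw2']
  abel

theorem mv2 {A B : Set (Finset V)} (hA : Down A) (hB : Down B) (h1 : Acyc R A) (h2 : Acyc R B)
    (h3 : Acyc R (A ∪ B)) : Acyc R (A ∩ B) := by
  intro z hz hbz
  obtain ⟨w1, hw1, hw1'⟩ := h1 z (hz.mono (fun l hl => hl.1)) hbz
  obtain ⟨w2, hw2, hw2'⟩ := h2 z (hz.mono (fun l hl => hl.2)) hbz
  obtain ⟨t, ht, ht'⟩ := h3 (w1 - w2)
    ((hw1.mono (fun l hl => Or.inl hl)).sub (hw2.mono (fun l hl => Or.inr hl)))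
    (by rw [map_sub, hw1', hw2', sub_self])
  obtain ⟨t1, t2, ht1, ht2, rfl⟩ := split ht
  refine ⟨w1 - bd R V t1, ?_, ?_⟩
  · have e : w1 - bd R V t1 = w2 + bd R V t2 := by
      rw [map_add] at ht'
      have : w1 = w2 + (bd R V t1 + bd R V t2) := by rw [ht']; abel
      rw [this]; abel
    have g1 : Supp (fun l => l.toFinset ∈ A) (w1 - bd R V t1) := hw1.sub (supp_bd_in hA ht1)
    have g2 : Supp (fun l => l.toFinset ∈ B) (w1 - bd R V t1) := by
      rw [e]; exact hw2.add (supp_bd_in hB ht2)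
    exact g1.inter g2
  · rw [map_sub, bd_bd, sub_zero, hw1']

theorem mv3 {A B : Set (Finset V)} (hA : Down A) (hB : Down B) (h1 : Acyc R (A ∩ B))
    (h3 : Acyc R (A ∪ B)) : Acyc R A := by
  intro z hz hbz
  obtain ⟨w, hw, hw'⟩ := h3 z (hz.mono (fun l hl => Or.inl hl)) hbz
  obtain ⟨w1, w2, hw1, hw2, rfl⟩ := split hw
  have e : bd R V w2 = z - bd R V w1 := by
    rw [map_add] at hw'
    rw [← hw']; abel
  have g1 : Supp (fun l => l.toFinset ∈ A) (bd R V w2) := by
    rw [e]; exact hz.sub (supp_bd_in hA hw1)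
  obtain ⟨y, hy, hy'⟩ := h1 (bd R V w2) (g1.inter (supp_bd_in hB hw2)) (bd_bd _)
  refine ⟨w1 + y, hw1.add (hy.mono (fun l hl => hl.1)), ?_⟩
  rw [map_add, hy', e]
  abel

/-- a complex which is a cone is acyclic. -/
theorem acyc_cone {K : Set (Finset V)} (v : V) (h : ∀ A ∈ K, insert v A ∈ K) : Acyc R K := by
  intro z hz hbz
  refine ⟨cone R v z, ?_, ?_⟩
  · apply hz.cone v
    intro l hl
    rw [List.toFinset_cons]
    exact h _ hl
  · rw [bd_cone, hbz, map_zero, sub_zero]

/-- the complex with only the empty face is not acyclic. -/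
theorem not_acyc_empty [Nontrivial R] : ¬ Acyc R ({∅} : Set (Finset V)) := by
  intro h
  obtain ⟨w, hw, hw'⟩ := h (bs R []) (Supp.bs (by simp)) bd_nil
  have hnil : ∀ l : List V, l.toFinset ∈ ({∅} : Set (Finset V)) → l = [] := by
    intro l hl
    simpa using hl
  have : bd R V w = 0 := by
    have := (hw.mono hnil).congr (bd R V) 0 (by
      rintro l rfl
      rw [bd_nil, LinearMap.zero_apply])
    rw [this, LinearMap.zero_apply]
  rw [this] at hw'
  have := congrArg (fun f : OCh R V => f []) hw'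
  simp [bs] at this

/-- deletion of a vertex. -/
def Del (K : Set (Finset V)) (v : V) : Set (Finset V) := {A ∈ K | v ∉ A}

/-- link of a vertex. -/
def Lk (K : Set (Finset V)) (v : V) : Set (Finset V) := {A | v ∉ A ∧ insert v A ∈ K}

/-- star of a vertex. -/
def St (K : Set (Finset V)) (v : V) : Set (Finset V) := {A | insert v A ∈ K}

theorem down_del {K : Set (Finset V)} (hK : Down K) (v : V) : Down (Del K v) := by
  intro A hA B hB
  exact ⟨hK A hA.1 B hB, fun h => hA.2 (hB h)⟩

theorem down_lk {K : Set (Finset V)} (hK : Down K) (v : V) : Down (Lk K v) := by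
  intro A hA B hB
  exact ⟨fun h => hA.1 (hB h), hK _ hA.2 _ (Finset.insert_subset_insert v hB)⟩

theorem down_st {K : Set (Finset V)} (hK : Down K) (v : V) : Down (St K v) := by
  intro A hA B hB
  exact hK _ hA _ (Finset.insert_subset_insert v hB)

theorem acyc_st (K : Set (Finset V)) (v : V) : Acyc R (St K v) := by
  apply acyc_cone v
  intro A hA
  change insert v (insert v A) ∈ K
  rw [Finset.insert_idem]
  exact hA

theorem del_union_st {K : Set (Finset V)} (hK : Down K) (v : V) : Del K v ∪ St K v = K := by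
  ext A
  constructor
  · rintro (h | h)
    · exact h.1
    · exact hK _ h _ (Finset.subset_insert v A)
  · intro h
    by_cases hv : v ∈ A
    · right
      change insert v A ∈ K
      rwa [Finset.insert_eq_of_mem hv]
    · exact Or.inl ⟨h, hv⟩

theorem del_inter_st {K : Set (Finset V)} (hK : Down K) (v : V) : Del K v ∩ St K v = Lk K v := by
  ext A
  constructor
  · rintro ⟨h1, h2⟩
    exact ⟨h1.2, h2⟩
  · rintro ⟨h1, h2⟩
    exact ⟨⟨hK _ h2 _ (Finset.subset_insert v A), h1⟩, h2⟩

/-- acyclic link: the vertex can be deleted. -/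
theorem ld1 {K : Set (Finset V)} (hK : Down K) (v : V) (h : Acyc R (Lk K v)) :
    Acyc R K ↔ Acyc R (Del K v) := by
  have e1 := del_union_st hK v
  have e2 := del_inter_st hK v
  constructor
  · intro hc
    apply mv3 (down_del hK v) (down_st hK v)
    · rw [e2]; exact h
    · rw [e1]; exact hc
  · intro hc
    rw [← e1]
    apply mv1 (down_del hK v) (down_st hK v) hc (acyc_st K v)
    rw [e2]; exact h

/-- acyclic deletion: the complex is as its link. -/
theorem ld2 {K : Set (Finset V)} (hK : Down K) (v : V) (h : Acyc R (Del K v)) :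
    Acyc R K ↔ Acyc R (Lk K v) := by
  have e1 := del_union_st hK v
  have e2 := del_inter_st hK v
  constructor
  · intro hc
    rw [← e2]
    apply mv2 (down_del hK v) (down_st hK v) h (acyc_st K v)
    rw [e1]; exact hc
  · intro hc
    rw [← e1]
    apply mv1 (down_del hK v) (down_st hK v) h (acyc_st K v)
    rw [e2]; exact hc

end

end Pool.Agent.OC
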