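import Pool.Agent.Lib_helper43.OC.Assembly
import Pool.Agent.Lib_helper43.OC.Data37

set_option autoImplicit false

namespace Pool.Agent.OC.D37

/-- positions of the endpoints of the chords. -/
def P : ℕ := 0x49444642433e3f3c453b3d383a3536333431472f302d2e2b37282a26402527222320291f481d1e1b1c19391718151613211232101a0f110c0e0a410924080b0607040d032c0214010500

theorem word_ok : chkW 37 96 M 8 P = true := by decide +kernel

theorem q1 : ∃ (n : ℕ) (G : SimpleGraph (Fin n)), IsCircleGraph G ∧
    ∀ (k : ℕ) (d : Fin k → ℕ),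
      IsEmpty (ContinuousMap.HomotopyEquiv (Geo (IndC G)) (Wedge d)) := by
  refine ⟨37, gr 37 (row 96 M) (chkSy_sound symm_ok), chkW_sound _ word_ok, ?_⟩
  intro k d
  exact not_wedge (R₁ := ZMod 3) (R₂ := ZMod 2) (down_indC _) (empty_mem_indC _)
    ((acyc_gr (by norm_num) _).2 acyc3) (fun h => not_acyc2 ((acyc_gr (by norm_num) _).1 h)) d

end Pool.Agent.OC.D37
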