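import Pool.Agent.Lib_helper43.OC.MV

set_option autoImplicit false
set_option linter.unusedSectionVars false

open Finset

/-! The boundary of the cross-polytope as a model of the sphere. -/

namespace Pool.Agent.OC

/-- boundary complex of the cross-polytope. -/
def Cross (d : ℕ) : Set (Finset (Fin (d + 1) × Bool)) :=
  {A | ∀ i, ¬ ((i, true) ∈ A ∧ (i, false) ∈ A)}

theorem down_cross (d : ℕ) : Down (Cross d) := by
  intro A hA B hB i h
  exact hA i ⟨hB h.1, hB h.2⟩

section
variable {R : Type*} [CommRing R]

/-- initial parts. -/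
def CrossI (d k : ℕ) : Set (Finset (Fin (d + 1) × Bool)) :=
  {A | (∀ i, ¬ ((i, true) ∈ A ∧ (i, false) ∈ A)) ∧ ∀ p ∈ A, (p.1 : ℕ) < k}

theorem down_crossI (d k : ℕ) : Down (CrossI d k) := by
  intro A hA B hB
  exact ⟨fun i h => hA.1 i ⟨hB h.1, hB h.2⟩, fun p hp => hA.2 p (hB hp)⟩

theorem not_acyc_crossI [Nontrivial R] (d k : ℕ) (hk : k ≤ d + 1) : ¬ Acyc R (CrossI d k) := by
  induction k with
  | zero =>
    have : CrossI d 0 = {∅} := by
      ext A
      rw [Set.mem_singleton_iff]
      constructor
      · rintro ⟨_, h⟩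
        apply Finset.eq_empty_of_forall_notMem
        intro p hp
        exact absurd (h p hp) (Nat.not_lt_zero _)
      · rintro rfl
        exact ⟨by simp, by simp⟩
    rw [this]
    exact not_acyc_empty
  | succ k ih =>
    have hk' : k < d + 1 := hk
    set v : Fin (d + 1) × Bool := (⟨k, hk'⟩, true) with hv
    have hdel : Acyc R (Del (CrossI d (k + 1)) v) := by
      apply acyc_cone (⟨k, hk'⟩, false)
      rintro A ⟨⟨h1, h2⟩, h3⟩
      refine ⟨⟨?_, ?_⟩, ?_⟩
      · rintro i ⟨h4, h5⟩
        rcases Finset.mem_insert.1 h4 with h4 | h4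
        · simp at h4
        · rcases Finset.mem_insert.1 h5 with h5 | h5
          · have : i = ⟨k, hk'⟩ := (Prod.mk.inj h5).1
            rw [this] at h4
            exact h3 h4
          · exact h1 i ⟨h4, h5⟩
      · intro p hp
        rcases Finset.mem_insert.1 hp with rfl | hp
        · exact Nat.lt_succ_self k
        · exact h2 p hp
      · intro h4
        rcases Finset.mem_insert.1 h4 with h4 | h4
        · rw [hv] at h4
          simp at h4
        · exact h3 h4
    rw [ld2 (down_crossI d (k + 1)) v hdel]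
    have : Lk (CrossI d (k + 1)) v = CrossI d k := by
      ext A
      constructor
      · rintro ⟨h1, h2, h3⟩
        refine ⟨fun i h => h2 i ⟨Finset.mem_insert_of_mem h.1, Finset.mem_insert_of_mem h.2⟩, ?_⟩
        intro p hp
        have h4 := h3 p (Finset.mem_insert_of_mem hp)
        rcases Nat.lt_succ_iff_lt_or_eq.1 h4 with h5 | h5
        · exact h5
        · exfalso
          obtain ⟨i, b⟩ := p
          have hi : i = ⟨k, hk'⟩ := Fin.ext h5
          subst hi
          rcases b with _ | _
          · exact h2 ⟨k, hk'⟩ ⟨Finset.mem_insert_self _ _, Finset.mem_insert_of_mem hp⟩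
          · exact h1 hp
      · rintro ⟨h1, h2⟩
        have hnot : ∀ b, ((⟨k, hk'⟩ : Fin (d + 1)), b) ∉ A := fun b hb =>
          absurd (h2 _ hb) (lt_irrefl k)
        refine ⟨hnot true, ?_, ?_⟩
        · rintro i ⟨h4, h5⟩
          rcases Finset.mem_insert.1 h5 with h5 | h5
          · simp [hv] at h5
          · rcases Finset.mem_insert.1 h4 with h4 | h4
            · have : i = ⟨k, hk'⟩ := (Prod.mk.inj h4).1
              rw [this] at h5
              exact hnot false h5
            · exact h1 i ⟨h4, h5⟩
        · intro p hp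
          rcases Finset.mem_insert.1 hp with rfl | hp
          · exact Nat.lt_succ_self k
          · exact (h2 p hp).trans (Nat.lt_succ_self k)
    rw [this]
    exact ih (by omega)

theorem not_acyc_cross [Nontrivial R] (d : ℕ) : ¬ Acyc R (Cross d) := by
  have : Cross d = CrossI d (d + 1) := by
    ext A
    constructor
    · intro h
      exact ⟨h, fun p _ => p.1.2⟩
    · intro h
      exact h.1
  rw [this]
  exact not_acyc_crossI d (d + 1) le_rfl

end

/-! ### maps -/

/-- differences of antipodal coordinates. -/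
noncomputable def crD (d : ℕ) (x : Fin (d + 1) × Bool → ℝ) : EuclideanSpace ℝ (Fin (d + 1)) :=
  WithLp.toLp 2 (fun i => x (i, true) - x (i, false))

theorem crD_apply (d : ℕ) (x : Fin (d + 1) × Bool → ℝ) (i : Fin (d + 1)) :
    crD d x i = x (i, true) - x (i, false) := rfl

theorem cross_zero {d : ℕ} {x : Fin (d + 1) × Bool → ℝ} (hx : x ∈ Geo (Cross d))
    (i : Fin (d + 1)) : x (i, true) = 0 ∨ x (i, false) = 0 := by
  have h := hx.2.2 i
  rw [mem_spt, mem_spt] at h
  by_contra h'
  push Not at h'
  exact h h'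

theorem cross_pos {d : ℕ} {x : Fin (d + 1) × Bool → ℝ} (hx : x ∈ Geo (Cross d))
    (i : Fin (d + 1)) : max (crD d x i) 0 = x (i, true) ∧ max (-(crD d x i)) 0 = x (i, false) := by
  have h0 := hx.1 (i, true)
  have h1 := hx.1 (i, false)
  rw [crD_apply]
  rcases cross_zero hx i with h | h
  · rw [h]
    constructor
    · rw [max_eq_right (by linarith)]
    · rw [max_eq_left (by linarith)]; ring
  · rw [h]
    constructor
    · rw [max_eq_left (by linarith)]; ring
    · rw [max_eq_right (by linarith)]

theorem cross_sum {d : ℕ} {x : Fin (d + 1) × Bool → ℝ} (hx : x ∈ Geo (Cross d)) :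
    ∑ i, |crD d x i| = 1 := by
  rw [← hx.2.1, Fintype.sum_prod_type]
  apply Finset.sum_congr rfl
  intro i _
  rw [Fintype.sum_bool]
  obtain ⟨h1, h2⟩ := cross_pos hx i
  have : |crD d x i| = max (crD d x i) 0 + max (-(crD d x i)) 0 := by
    rcases le_total 0 (crD d x i) with h | h
    · rw [abs_of_nonneg h, max_eq_left h, max_eq_right (by linarith), add_zero]
    · rw [abs_of_nonpos h, max_eq_right h, max_eq_left (by linarith), zero_add]
  rw [this, h1, h2]

theorem crD_ne {d : ℕ} {x : Fin (d + 1) × Bool → ℝ} (hx : x ∈ Geo (Cross d)) :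
    crD d x ≠ 0 := by
  intro h
  have := cross_sum hx
  rw [h] at this
  simp at this

theorem continuous_crD (d : ℕ) : Continuous (crD d) := by
  unfold crD
  fun_prop

/-- the radial projection to the sphere. -/
noncomputable def crU (d : ℕ) : C(Geo (Cross d), Sph d) where
  toFun x := ⟨(‖crD d x‖)⁻¹ • crD d x, by
    rw [mem_sphere_zero_iff_norm, norm_smul, norm_inv, norm_norm,
      inv_mul_cancel₀ (norm_ne_zero_iff.2 (crD_ne x.2))]⟩
  continuous_toFun := by
    apply Continuous.subtype_mk
    have h1 : Continuous (fun x : Geo (Cross d) => crD d x) :=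
      (continuous_crD d).comp continuous_subtype_val
    exact (h1.norm.inv₀ (fun x => norm_ne_zero_iff.2 (crD_ne x.2))).smul h1

theorem sph_sum_pos {d : ℕ} (e : Sph d) : 0 < ∑ i, |(e : EuclideanSpace ℝ (Fin (d + 1))) i| := by
  have h0 : 0 ≤ ∑ i, |(e : EuclideanSpace ℝ (Fin (d + 1))) i| :=
    Finset.sum_nonneg (fun i _ => abs_nonneg _)
  rcases h0.lt_or_eq with h | h
  · exact h
  · exfalso
    have h2 := (Finset.sum_eq_zero_iff_of_nonneg (fun i _ => abs_nonneg _)).1 h.symm
    have h3 : (e : EuclideanSpace ℝ (Fin (d + 1))) = 0 := by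
      ext i
      simpa using h2 i (Finset.mem_univ i)
    have h4 := mem_sphere_zero_iff_norm.1 e.2
    rw [h3, norm_zero] at h4
    exact zero_ne_one h4

/-- the map from the sphere. -/
noncomputable def crV (d : ℕ) : C(Sph d, Geo (Cross d)) where
  toFun e := ⟨fun p => (if p.2 = true then max ((e : EuclideanSpace ℝ (Fin (d + 1))) p.1) 0
      else max (-((e : EuclideanSpace ℝ (Fin (d + 1))) p.1)) 0) /
      ∑ i, |(e : EuclideanSpace ℝ (Fin (d + 1))) i|, by
    have hs := sph_sum_pos e
    refine ⟨?_, ?_, ?_⟩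
    · intro p
      apply div_nonneg _ hs.le
      split_ifs
      · exact le_max_right _ _
      · exact le_max_right _ _
    · rw [← Finset.sum_div, Fintype.sum_prod_type]
      have : ∑ i, ∑ b : Bool, (if (i, b).2 = true then
          max ((e : EuclideanSpace ℝ (Fin (d + 1))) (i, b).1) 0
          else max (-((e : EuclideanSpace ℝ (Fin (d + 1))) (i, b).1)) 0) =
          ∑ i, |(e : EuclideanSpace ℝ (Fin (d + 1))) i| := by
        apply Finset.sum_congr rfl
        intro i _
        rw [Fintype.sum_bool]
        simp only [if_true, Bool.false_eq_true, if_false]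
        rcases le_total 0 ((e : EuclideanSpace ℝ (Fin (d + 1))) i) with h | h
        · rw [abs_of_nonneg h, max_eq_left h, max_eq_right (by linarith), add_zero]
        · rw [abs_of_nonpos h, max_eq_right h, max_eq_left (by linarith), zero_add]
      rw [this, div_self hs.ne']
    · intro i
      rw [mem_spt, mem_spt]
      simp only [if_true, Bool.false_eq_true, if_false]
      rintro ⟨h1, h2⟩
      rcases le_total 0 ((e : EuclideanSpace ℝ (Fin (d + 1))) i) with h | h
      · rw [max_eq_right (by linarith), zero_div] at h2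
        exact h2 rfl
      · rw [max_eq_right h, zero_div] at h1
        exact h1 rfl⟩
  continuous_toFun := by
    apply Continuous.subtype_mk
    apply continuous_pi
    intro p
    have hc : ∀ i, Continuous (fun e : Sph d => (e : EuclideanSpace ℝ (Fin (d + 1))) i) := by
      intro i
      fun_prop
    apply Continuous.div
    · by_cases hp : p.2 = true
      · simp only [hp, if_true]
        exact (hc p.1).max continuous_const
      · simp only [hp, Bool.false_eq_true, if_false]
        exact (hc p.1).neg.max continuous_const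
    · exact continuous_finsetSum _ (fun i _ => (hc i).abs)
    · intro e
      exact (sph_sum_pos e).ne'

theorem crV_crU (d : ℕ) (x : Geo (Cross d)) : crV d (crU d x) = x := by
  apply Subtype.ext
  funext p
  have hn : 0 < ‖crD d x‖ := norm_pos_iff.2 (crD_ne x.2)
  have hi : 0 < (‖crD d x‖)⁻¹ := inv_pos.2 hn
  have e1 : ∑ i, |((crU d x : Sph d) : EuclideanSpace ℝ (Fin (d + 1))) i| = (‖crD d x‖)⁻¹ := by
    have : ∀ i, |((crU d x : Sph d) : EuclideanSpace ℝ (Fin (d + 1))) i| =
        (‖crD d x‖)⁻¹ * |crD d x i| := by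
      intro i
      have : ((crU d x : Sph d) : EuclideanSpace ℝ (Fin (d + 1))) i = (‖crD d x‖)⁻¹ * crD d x i :=
        rfl
      rw [this, abs_mul, abs_of_pos hi]
    rw [Finset.sum_congr rfl (fun i _ => this i), ← Finset.mul_sum, cross_sum x.2, mul_one]
  have e2 : ((crU d x : Sph d) : EuclideanSpace ℝ (Fin (d + 1))) p.1 =
      (‖crD d x‖)⁻¹ * crD d x p.1 := rfl
  have e3 : (crV d (crU d x) : Fin (d + 1) × Bool → ℝ) p =
      (if p.2 = true then max (((crU d x : Sph d) : EuclideanSpace ℝ (Fin (d + 1))) p.1) 0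
      else max (-(((crU d x : Sph d) : EuclideanSpace ℝ (Fin (d + 1))) p.1)) 0) /
      ∑ i, |((crU d x : Sph d) : EuclideanSpace ℝ (Fin (d + 1))) i| := rfl
  rw [e3, e1, e2]
  obtain ⟨h1, h2⟩ := cross_pos x.2 p.1
  obtain ⟨i, b⟩ := p
  rcases b with _ | _
  · simp only [Bool.false_eq_true, if_false]
    rw [← mul_neg, ← mul_zero ((‖crD d x‖)⁻¹), ← mul_max_of_nonneg _ _ hi.le]
    simp only at h2
    rw [h2, mul_div_assoc, mul_comm, div_mul_cancel₀ _ hi.ne']
  · simp only [if_true]
    rw [← mul_zero ((‖crD d x‖)⁻¹), ← mul_max_of_nonneg _ _ hi.le]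
    simp only at h1
    rw [h1, mul_div_assoc, mul_comm, div_mul_cancel₀ _ hi.ne']

end Pool.Agent.OC
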